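import Mathlib

/-!
Models of the system `RCA₀` of second-order arithmetic (Henkin semantics), following
Simpson, Subsystems of second order arithmetic, Definitions I.2.1, I.2.2 and I.7.4.
-/

namespace Pool.Agent.KS6_49.CW.RM

universe u

/-- A structure for the language of second-order arithmetic: a set `M` of numbers with
`0`, `1`, `+`, `·`, `<`, and a collection `Sets` of subsets of `M` over which the set
variables range. -/
structure L2Structure where
  M : Type u
  zero : M
  one : M
  add : M → M → M
  mul : M → M → M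
  lt : M → M → Prop
  Sets : Set (Set M)

/-- Number terms, with number parameters from the structure. `var i` is the `i`-th free
number variable. -/
inductive Term (N : L2Structure.{u}) : Type u
  | var (i : ℕ) : Term N
  | const (a : N.M) : Term N
  | zero : Term N
  | one : Term N
  | add (s t : Term N) : Term N
  | mul (s t : Term N) : Term N

/-- `cons a v` is the sequence `a, v 0, v 1, …`. -/
def cons {α : Type u} (a : α) (v : ℕ → α) : ℕ → α
  | 0 => a
  | n + 1 => v n

/-- The value of a term under an assignment `v` of the number variables. -/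
def Term.val {N : L2Structure.{u}} : Term N → (ℕ → N.M) → N.M
  | .var i, v => v i
  | .const a, _ => a
  | .zero, _ => N.zero
  | .one, _ => N.one
  | .add s t, v => N.add (s.val v) (t.val v)
  | .mul s t, v => N.mul (s.val v) (t.val v)

/-- `Δ⁰₀` formulas (all quantifiers are bounded number quantifiers) with number and set
parameters from the structure, in de Bruijn form: `ball t φ` is `∀ x < t, φ`, where `x` is the
variable `0` of `φ` and the variable `i` of `ball t φ` is the variable `i + 1` of `φ`. -/
inductive Delta0 (N : L2Structure.{u}) : Type u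
  | eq (s t : Term N) : Delta0 N
  | lt (s t : Term N) : Delta0 N
  | mem (t : Term N) (X : N.Sets) : Delta0 N
  | neg (φ : Delta0 N) : Delta0 N
  | and (φ ψ : Delta0 N) : Delta0 N
  | ball (t : Term N) (φ : Delta0 N) : Delta0 N

/-- Truth of a `Δ⁰₀` formula in the structure under an assignment. -/
def Delta0.Holds {N : L2Structure.{u}} : Delta0 N → (ℕ → N.M) → Prop
  | .eq s t, v => s.val v = t.val v
  | .lt s t, v => N.lt (s.val v) (t.val v)
  | .mem t X, v => t.val v ∈ (X : Set N.M)
  | .neg φ, v => ¬ φ.Holds v
  | .and φ ψ, v => φ.Holds v ∧ ψ.Holds v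
  | .ball t φ, v => ∀ a, N.lt a (t.val v) → φ.Holds (cons a v)

/-- `N` is a model of `RCA₀`: the basic axioms, induction for all `Σ⁰₁` formulas
`∃ k, θ(k, n)` with parameters, and comprehension for all `Δ⁰₁` formulas with parameters. -/
class IsModelRCA0 (N : L2Structure.{u}) : Prop where
  ax_succ_ne_zero : ∀ n, N.add n N.one ≠ N.zero
  ax_succ_inj : ∀ m n, N.add m N.one = N.add n N.one → m = n
  ax_add_zero : ∀ m, N.add m N.zero = m
  ax_add_succ : ∀ m n, N.add m (N.add n N.one) = N.add (N.add m n) N.one
  ax_mul_zero : ∀ m, N.mul m N.zero = N.zero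
  ax_mul_succ : ∀ m n, N.mul m (N.add n N.one) = N.add (N.mul m n) m
  ax_not_lt_zero : ∀ m, ¬ N.lt m N.zero
  ax_lt_succ : ∀ m n, N.lt m (N.add n N.one) ↔ (N.lt m n ∨ m = n)
  sigma1_induction : ∀ (θ : Delta0 N) (v : ℕ → N.M),
    (∃ k, θ.Holds (cons k (cons N.zero v))) →
    (∀ n, (∃ k, θ.Holds (cons k (cons n v))) →
      ∃ k, θ.Holds (cons k (cons (N.add n N.one) v))) →
    ∀ n, ∃ k, θ.Holds (cons k (cons n v))
  delta1_comprehension : ∀ (θ ψ : Delta0 N) (v : ℕ → N.M),
    (∀ n, (∃ k, θ.Holds (cons k (cons n v))) ↔ ∀ k, ψ.Holds (cons k (cons n v))) →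
    {n | ∃ k, θ.Holds (cons k (cons n v))} ∈ N.Sets

end Pool.Agent.KS6_49.CW.RM
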