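import Mathlib

/-!
Initial parts of sets, and limits along a nonprincipal ultrafilter.
-/

namespace Pool.Agent.KS6_49.CW.FS

open Filter

theorem many {Φ : Finset ℕ → Prop} (h : ∀ m, ∃ D, Φ D ∧ ∀ x ∈ D, m < x) :
    ∃ D : ℕ → Finset ℕ, (∀ i, Φ (D i)) ∧ ∀ i j, i < j → ∀ x ∈ D i, ∀ y ∈ D j, x < y := by
  classical
  choose f hf1 hf2 using h
  let mm : ℕ → ℕ := fun i => Nat.rec 0 (fun _ m => max m ((f m).sup id)) i
  have hmm : ∀ i, mm (i + 1) = max (mm i) ((f (mm i)).sup id) := fun i => rfl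
  have hmono : ∀ i j, i ≤ j → mm i ≤ mm j := by
    intro i j hij
    induction j, hij using Nat.le_induction with
    | base => exact le_rfl
    | succ k _ ih => rw [hmm]; exact ih.trans (le_max_left _ _)
  refine ⟨fun i => f (mm i), fun i => hf1 _, ?_⟩
  intro i j hij x hx y hy
  have h1 : x ≤ mm (i + 1) := by
    rw [hmm]
    exact (Finset.le_sup (f := id) hx).trans (le_max_right _ _)
  have h2 := hf2 (mm j) y hy
  have h3 := hmono (i + 1) j hij
  omega

open Classical in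
/-- initial parts of a set -/
noncomputable def cut (Z : Set ℕ) (t : ℕ) : Finset ℕ := (Finset.range (t + 1)).filter (· ∈ Z)

theorem mem_cut {Z : Set ℕ} {t x : ℕ} : x ∈ cut Z t ↔ x ≤ t ∧ x ∈ Z := by
  classical
  unfold cut
  rw [Finset.mem_filter, Finset.mem_range]
  constructor
  · rintro ⟨h1, h2⟩; exact ⟨by omega, h2⟩
  · rintro ⟨h1, h2⟩; exact ⟨by omega, h2⟩

theorem cut_mono {Z Z' : Set ℕ} (hZ : Z ⊆ Z') {t t' : ℕ} (h : t ≤ t') : cut Z t ⊆ cut Z' t' := by
  intro x hx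
  rw [mem_cut] at hx ⊢
  exact ⟨hx.1.trans h, hZ hx.2⟩

theorem subset_cut {Z : Set ℕ} {D : Finset ℕ} (hD : (D : Set ℕ) ⊆ Z) {t : ℕ} (ht : D.sup id ≤ t) :
    D ⊆ cut Z t := by
  intro x hx
  rw [mem_cut]
  exact ⟨(Finset.le_sup (f := id) hx).trans ht, hD hx⟩

/-- a fixed nonprincipal ultrafilter -/
noncomputable abbrev UU : Ultrafilter ℕ := hyperfilter ℕ

theorem ev_ge (k : ℕ) : ∀ᶠ t in (UU : Filter ℕ), k ≤ t :=
  Nat.hyperfilter_le_atTop (Filter.eventually_ge_atTop k)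

theorem ev_const {p : Prop} (h : ∀ᶠ _t in (UU : Filter ℕ), p) : p := by
  obtain ⟨_, h⟩ := h.exists
  exact h

open Classical in
/-- the limit of a sequence of numbers, with a default value -/
noncomputable def lim (a : ℕ → ℕ) (d : ℕ) : ℕ :=
  if h : ∃ z, ∀ᶠ t in (UU : Filter ℕ), a t = z then h.choose else d

theorem lim_spec (a : ℕ → ℕ) (d z : ℕ) : ∀ᶠ t in (UU : Filter ℕ), a t = z → lim a d = z := by
  classical
  by_cases h : ∃ z, ∀ᶠ t in (UU : Filter ℕ), a t = z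
  · have e : lim a d = h.choose := dif_pos h
    refine h.choose_spec.mono ?_
    intro t ht hz
    rw [e, ← ht, hz]
  · push Not at h
    exact (h z).mono fun t ht hz => absurd hz ht

theorem lim_bdd (a : ℕ → ℕ) (d K : ℕ) (h : ∀ᶠ t in (UU : Filter ℕ), a t < K) :
    ∀ᶠ t in (UU : Filter ℕ), a t = lim a d := by
  classical
  have hex : ∃ z, ∀ᶠ t in (UU : Filter ℕ), a t = z := by
    by_contra hcon
    push Not at hcon
    have h1 : ∀ z, ∀ᶠ t in (UU : Filter ℕ), ¬ a t = z := fun z => hcon z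
    have h2 : ∀ᶠ t in (UU : Filter ℕ), ∀ z ∈ Finset.range K, ¬ a t = z :=
      (Filter.eventually_all_finset _).mpr fun z _ => h1 z
    obtain ⟨t, ht1, ht2⟩ := (h.and h2).exists
    exact ht2 _ (Finset.mem_range.mpr ht1) rfl
  have e : lim a d = hex.choose := dif_pos hex
  rw [e]
  exact hex.choose_spec

theorem lim_lt (a : ℕ → ℕ) (d K : ℕ) (h : ∀ᶠ t in (UU : Filter ℕ), a t < K) : lim a d < K := by
  obtain ⟨t, h1, h2⟩ := (h.and (lim_bdd a d K h)).exists
  rw [← h2]; exact h1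

end Pool.Agent.KS6_49.CW.FS
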