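import Pool.Agent.KS6_49.CW.CRDefs

/-!
Further principles of second-order arithmetic: separation for `Σ⁰₁` formulas, weak König's lemma,
cohesiveness for sequences of bounded length. First-order arithmetic with unary predicates.
-/

namespace Pool.Agent.KS6_49.CW

open RM

section principles

universe u

variable (N : L2Structure.{u})

/-- Separation for `Σ⁰₁` formulas with parameters. -/
def SigmaSep : Prop :=
  ∀ (θ ψ : Delta0 N) (v : ℕ → N.M),
    (∀ n, ¬ ((∃ k, θ.Holds (cons k (cons n v))) ∧ ∃ k, ψ.Holds (cons k (cons n v)))) →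
    ∃ X ∈ N.Sets, ∀ n, ((∃ k, θ.Holds (cons k (cons n v))) → n ∈ X) ∧
      ((∃ k, ψ.Holds (cons k (cons n v))) → n ∉ X)

/-- The nonzero numbers as the nodes of the full binary tree: the root is `1` and the children
of `x` are `2x` and `2x + 1`. In other words, the number with binary expansion `1σ` stands for the
binary string `σ`. -/
def Child (x y : N.M) : Prop := y = N.add x x ∨ y = N.add (N.add x x) N.one

/-- `T` is a set of nodes closed under predecessors. -/
def IsTree (T : Set N.M) : Prop :=
  N.zero ∉ T ∧ ∀ x y, x ≠ N.zero → Child N x y → y ∈ T → x ∈ T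

/-- `P` is an infinite branch of the full binary tree: it contains the root, it is closed under
predecessors, and exactly one child of each element of `P` is in `P`. -/
def IsBranch (P : Set N.M) : Prop :=
  IsTree N P ∧ N.one ∈ P ∧ ∀ x ∈ P,
    (N.add x x ∈ P ∧ N.add (N.add x x) N.one ∉ P) ∨ (N.add x x ∉ P ∧ N.add (N.add x x) N.one ∈ P)

/-- Weak König's lemma: every infinite binary tree has an infinite branch. -/
def WKL : Prop := ∀ T ∈ N.Sets, IsTree N T → ¬ IsFin N T → ∃ P ∈ N.Sets, P ⊆ T ∧ IsBranch N P

/-- The cohesiveness principle for sequences `(R_i)_{i < a}` of bounded length. -/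
def FinCOH : Prop :=
  ∀ (a : N.M), ∀ R ∈ N.Sets, ∃ C ∈ N.Sets, ¬ IsFin N C ∧ ∀ i, N.lt i a →
    IsFin N {x | x ∈ C ∧ N.pair i x ∈ R} ∨ IsFin N {x | x ∈ C ∧ N.pair i x ∉ R}

end principles

/-! ### first-order arithmetic -/

/-- terms of first-order arithmetic -/
inductive Tm : Type
  | var (i : ℕ) : Tm
  | zero : Tm
  | one : Tm
  | add (s t : Tm) : Tm
  | mul (s t : Tm) : Tm

/-- formulas of first-order arithmetic with unary predicates `X_0, X_1, …`, in de Bruijn form:
`mem s k` is `s ∈ X_k` and `all φ` is `∀ x, φ`, where `x` is the variable `0` of `φ` and the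
variable `i` of `all φ` is the variable `i + 1` of `φ` -/
inductive Fm : Type
  | eq (s t : Tm) : Fm
  | lt (s t : Tm) : Fm
  | mem (s : Tm) (k : ℕ) : Fm
  | neg (φ : Fm) : Fm
  | and (φ ψ : Fm) : Fm
  | all (φ : Fm) : Fm

/-- the value of a term -/
def Tm.val (N : L2Structure.{0}) : Tm → (ℕ → N.M) → N.M
  | .var i, v => v i
  | .zero, _ => N.zero
  | .one, _ => N.one
  | .add s t, v => N.add (s.val N v) (t.val N v)
  | .mul s t, v => N.mul (s.val N v) (t.val N v)

/-- truth of a formula in the first-order part of `N` with the sets `U k` as predicates -/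
def Fm.Holds (N : L2Structure.{0}) (U : ℕ → Set N.M) : Fm → (ℕ → N.M) → Prop
  | .eq s t, v => s.val N v = t.val N v
  | .lt s t, v => N.lt (s.val N v) (t.val N v)
  | .mem s k, v => s.val N v ∈ U k
  | .neg φ, v => ¬ φ.Holds N U v
  | .and φ ψ, v => φ.Holds N U v ∧ ψ.Holds N U v
  | .all φ, v => ∀ a, φ.Holds N U (cons a v)

/-- the natural numbers with all sets -/
def stdN : L2Structure.{0} where
  M := ℕ
  zero := 0
  one := 1
  add := (· + ·)
  mul := (· * ·)
  lt := (· < ·)
  Sets := Set.univ

end Pool.Agent.KS6_49.CW
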