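import Pool.Agent.KS6_49.CW.Mod5
import Pool.Agent.KS6_49.CW.More

/-!
The structure is an elementary extension of the standard model with countably many predicates.
-/

namespace Pool.Agent.KS6_49.CW

open RM

deriving instance Countable for Tm
deriving instance Countable for Fm

/-- a bound for the variables of a term -/
def Tm.fv : Tm → ℕ
  | .var i => i + 1
  | .zero => 0
  | .one => 0
  | .add s t => max s.fv t.fv
  | .mul s t => max s.fv t.fv

/-- a bound for the variables of a formula -/
def Fm.fv : Fm → ℕ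
  | .eq s t => max s.fv t.fv
  | .lt s t => max s.fv t.fv
  | .mem s _ => s.fv
  | .neg φ => φ.fv
  | .and φ ψ => max φ.fv ψ.fv
  | .all φ => φ.fv

theorem Tm.val_congr (N : L2Structure.{0}) (s : Tm) : ∀ {v v' : ℕ → N.M},
    (∀ i < s.fv, v i = v' i) → s.val N v = s.val N v' := by
  induction s with
  | var i => intro v v' h; exact h i (Nat.lt_succ_self i)
  | zero => intro v v' _; rfl
  | one => intro v v' _; rfl
  | add s t ihs iht =>
    intro v v' h
    simp only [Tm.val]
    rw [ihs fun i hi => h i (lt_of_lt_of_le hi (le_max_left _ _)),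
      iht fun i hi => h i (lt_of_lt_of_le hi (le_max_right _ _))]
  | mul s t ihs iht =>
    intro v v' h
    simp only [Tm.val]
    rw [ihs fun i hi => h i (lt_of_lt_of_le hi (le_max_left _ _)),
      iht fun i hi => h i (lt_of_lt_of_le hi (le_max_right _ _))]

theorem Fm.holds_congr (N : L2Structure.{0}) (U : ℕ → Set N.M) (φ : Fm) : ∀ {v v' : ℕ → N.M},
    (∀ i < φ.fv, v i = v' i) → (φ.Holds N U v ↔ φ.Holds N U v') := by
  induction φ with
  | eq s t =>
    intro v v' h
    simp only [Fm.Holds]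
    rw [s.val_congr N fun i hi => h i (lt_of_lt_of_le hi (le_max_left _ _)),
      t.val_congr N fun i hi => h i (lt_of_lt_of_le hi (le_max_right _ _))]
  | lt s t =>
    intro v v' h
    simp only [Fm.Holds]
    rw [s.val_congr N fun i hi => h i (lt_of_lt_of_le hi (le_max_left _ _)),
      t.val_congr N fun i hi => h i (lt_of_lt_of_le hi (le_max_right _ _))]
  | mem s k =>
    intro v v' h
    simp only [Fm.Holds]
    rw [s.val_congr N fun i hi => h i hi]
  | neg φ ih =>
    intro v v' h
    simp only [Fm.Holds]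
    rw [ih h]
  | and φ ψ ih1 ih2 =>
    intro v v' h
    simp only [Fm.Holds]
    rw [ih1 fun i hi => h i (lt_of_lt_of_le hi (le_max_left _ _)),
      ih2 fun i hi => h i (lt_of_lt_of_le hi (le_max_right _ _))]
  | all φ ih =>
    intro v v' h
    simp only [Fm.Holds]
    refine forall_congr' fun a => ih fun i hi => ?_
    cases i with
    | zero => rfl
    | succ n => exact h n (show n < φ.fv by omega)

/-- the sequence coded by a number -/
def dv : ℕ → ℕ → ℕ
  | w, 0 => w.unpair.1
  | w, i + 1 => dv w.unpair.2 i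

open Classical in
/-- search for a counterexample -/
noncomputable def sk (A : ℕ → Set ℕ) (φ : Fm) (w : ℕ) : ℕ :=
  if h : ∃ y : ℕ, ¬ φ.Holds stdN A (cons (α := ℕ) y (dv w)) then Nat.find h else 0

theorem sk_spec {A : ℕ → Set ℕ} {φ : Fm} {w : ℕ}
    (h : ∃ y : ℕ, ¬ φ.Holds stdN A (cons (α := ℕ) y (dv w))) :
    ¬ φ.Holds stdN A (cons (α := ℕ) (sk A φ w) (dv w)) := by
  classical
  unfold sk
  rw [dif_pos h]
  exact Nat.find_spec h

namespace CR

open Filter CT

/-- the functions needed for elementarity -/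
structure Good1 [Par] (A : ℕ → Set ℕ) : Prop where
  hs : ∀ φ : Fm, ∃ k, ∀ w, Par.g k w = sk A φ w
  hm : ∀ k, ∃ m, ∀ w, Par.g m w ≠ 0 ↔ w ∈ A k

variable [Par] {A : ℕ → Set ℕ}

/-- the traces of the standard sets -/
def BB (A : ℕ → Set ℕ) (k : ℕ) : Set PP.M := {x | Ev fun t => rp x t ∈ A k}

theorem BB_mem (hA : Good1 A) (k : ℕ) : BB A k ∈ PP.Sets := by
  obtain ⟨m, hm⟩ := hA.hm k
  refine ⟨.setc topC (.op 15 (.pair (.nat m) .var)), fun x => ?_⟩
  show (Ev fun t => rp x t ∈ A k) ↔ Ev fun t => rp x t ∈ dec (E _ t)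
  refine Ev.congr ((rp_top x).mono fun t h => ?_)
  unfold E
  rw [mem_setc, ev_topC]
  have e : ev (.op 15 (.pair (.nat m) .var)) t (consN (rp x t) fun _ => 0) =
      Par.g m (rp x t) := by
    simp [ev, opf]
  rw [e, hm]
  exact ⟨fun h1 => ⟨by omega, h1⟩, fun h1 => h1.2⟩

theorem tm_val (s : Tm) (v : ℕ → PP.M) :
    Ev fun t => rp (s.val PP v) t = s.val stdN (fun i => rp (v i) t) := by
  induction s with
  | var i => exact Ev.of fun _ => rfl
  | zero => exact rv_zero
  | one => exact rv_one
  | add a b iha ihb =>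
    refine iha.mono3 ihb (rv_add (a.val PP v) (b.val PP v)) ?_
    intro t h1 h2 h3
    show rp (PP.add (a.val PP v) (b.val PP v)) t = _
    rw [h3, h1, h2]; rfl
  | mul a b iha ihb =>
    refine iha.mono3 ihb (rv_mul (a.val PP v) (b.val PP v)) ?_
    intro t h1 h2 h3
    show rp (PP.mul (a.val PP v) (b.val PP v)) t = _
    rw [h3, h1, h2]; rfl

/-- code of a finite sequence -/
noncomputable def tup : ℕ → (ℕ → PP.M) → Cd
  | 0, _ => .nat 0
  | n + 1, v => .pair (rc (v 0)) (tup n fun i => v (i + 1))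

theorem bdd_tup : ∀ (n : ℕ) (v : ℕ → PP.M), Bdd (tup n v)
  | 0, _ => bdd_nat 0
  | n + 1, v => bdd_pair (rc_bdd (v 0)) (bdd_tup n _)

theorem dv_tup (t : ℕ) : ∀ (n : ℕ) (v : ℕ → PP.M) (i : ℕ), i < n → dv (E (tup n v) t) i =
    rp (v i) t
  | 0, _, _, h => absurd h (Nat.not_lt_zero _)
  | n + 1, v, i, h => by
    have e : E (tup (n + 1) v) t = Nat.pair (rp (v 0) t) (E (tup n fun i => v (i + 1)) t) := rfl
    rw [e]
    cases i with
    | zero => simp [dv]
    | succ i =>
      simp only [dv, Nat.unpair_pair]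
      exact dv_tup t n (fun i => v (i + 1)) i (by omega)

/-- transfer for all formulas -/
theorem los_full (hA : Good1 A) (φ : Fm) : ∀ v : ℕ → PP.M,
    φ.Holds PP (BB A) v ↔ Ev fun t => φ.Holds stdN A (fun i => rp (v i) t) := by
  induction φ with
  | eq a b =>
    intro v
    show a.val PP v = b.val PP v ↔ _
    rw [pp_ext]
    refine Ev.congr ((tm_val a v).mono2 (tm_val b v) fun t h1 h2 => ?_)
    rw [h1, h2]
    exact Iff.rfl
  | lt a b =>
    intro v
    show (Ev fun t => rp (a.val PP v) t < rp (b.val PP v) t) ↔ _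
    refine Ev.congr ((tm_val a v).mono2 (tm_val b v) fun t h1 h2 => ?_)
    rw [h1, h2]
    exact Iff.rfl
  | mem a k =>
    intro v
    show (Ev fun t => rp (a.val PP v) t ∈ A k) ↔ _
    refine Ev.congr ((tm_val a v).mono fun t h1 => ?_)
    rw [h1]
    exact Iff.rfl
  | neg φ ih =>
    intro v
    show ¬ φ.Holds PP (BB A) v ↔ Ev fun t => ¬ φ.Holds stdN A _
    rw [ih v, Ev.not]
  | and φ ψ ih1 ih2 =>
    intro v
    show φ.Holds PP (BB A) v ∧ ψ.Holds PP (BB A) v ↔
      Ev fun t => φ.Holds stdN A _ ∧ ψ.Holds stdN A _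
    rw [ih1 v, ih2 v, Ev.and_iff]
  | all φ ih =>
    intro v
    show (∀ a, φ.Holds PP (BB A) (cons a v)) ↔
      Ev fun t => ∀ a : ℕ, φ.Holds stdN A (cons (α := ℕ) a (fun i => rp (v i) t))
    have hcons : ∀ (a : PP.M) (t : ℕ), (fun i => rp (cons a v i) t) =
        cons (α := ℕ) (rp a t) (fun i => rp (v i) t) := by
      intro a t
      funext i
      cases i with
      | zero => rfl
      | succ n => rfl
    constructor
    · intro h
      by_contra hcon
      rw [← Ev.not] at hcon
      obtain ⟨k, hk⟩ := hA.hs φ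
      let c : Cd := .op 15 (.pair (.nat k) (tup φ.fv v))
      have hc : Bdd c := bdd_g k (bdd_tup _ _)
      have hE : ∀ t, E c t = sk A φ (E (tup φ.fv v) t) := by
        intro t
        rw [← hk]
        simp [c, E, ev, opf]
      have key : ∀ (t a : ℕ), φ.Holds stdN A (cons (α := ℕ) a (dv (E (tup φ.fv v) t))) ↔
          φ.Holds stdN A (cons (α := ℕ) a (fun i => rp (v i) t)) := by
        intro t a
        refine φ.holds_congr stdN A fun i hi => ?_
        cases i with
        | zero => rfl
        | succ n => exact dv_tup t φ.fv v n (by omega)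
      have h1 := (ih (cons (mkp c hc) v)).mp (h _)
      refine (h1.mono3 hcon (rp_mkp c hc) fun t h2 h3 h4 => ?_).false
      rw [hcons, h4, hE, ← key] at h2
      push Not at h3
      obtain ⟨a, ha⟩ := h3
      rw [← key] at ha
      exact sk_spec ⟨a, ha⟩ h2
    · intro h a
      rw [ih]
      refine h.mono fun t h1 => ?_
      rw [hcons]
      exact h1 _

/-- the standard numbers in the structure -/
def jj (n : ℕ) : PP.M := mkp (.nat n) (bdd_nat n)

theorem rp_jj (n : ℕ) : Ev fun t => rp (jj n) t = n := (rp_mkp _ (bdd_nat n)).mono fun t h => by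
  show rp (mkp _ (bdd_nat n)) t = n
  rw [h]
  simp [E]

/-- the standard model is an elementary substructure -/
theorem elem (hA : Good1 A) (φ : Fm) (v : ℕ → ℕ) :
    φ.Holds stdN A v ↔ φ.Holds PP (BB A) (fun i => jj (v i)) := by
  rw [los_full hA]
  have h1 : Ev fun t => ∀ i ∈ Finset.range φ.fv, rp (jj (v i)) t = v i :=
    (Filter.eventually_all_finset _).mpr fun i _ => rp_jj (v i)
  have h2 : (Ev fun t => φ.Holds stdN A (fun i => rp (jj (v i)) t)) ↔
      Ev fun _ => φ.Holds stdN A v := by
    refine Ev.congr (h1.mono fun t h => ?_)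
    exact φ.holds_congr stdN A fun i hi => h i (Finset.mem_range.mpr hi)
  rw [h2]
  exact ⟨fun h => Ev.of fun _ => h, fun h => by
    obtain ⟨_, h⟩ := h.exists
    exact h⟩

end CR

end Pool.Agent.KS6_49.CW
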