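import Pool.Agent.KS6_49.CW.Comp

/-!
Existence of large finite sets for suitable colourings.
-/

namespace Pool.Agent.KS6_49.CW.CR

open CT
open Pool.Agent.KS6_49.CW.FS (cut mem_cut)

variable [Par]

theorem L_congr {col col' : ℕ → ℕ} : ∀ (n : ℕ) (T : CT) {D : Finset ℕ},
    (∀ x, (∃ a ∈ D, a ≤ x) → (∃ b ∈ D, x ≤ b) → col x = col' x) →
    L col n T D → L col' n T D
  | n, .leaf S a, D, hc, h => by
    rw [L_leaf] at h ⊢
    refine ⟨h.1, fun y hy => ?_, fun z h1 h2 => ?_⟩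
    · rw [← hc y ⟨y, hy, le_rfl⟩ ⟨y, hy, le_rfl⟩]; exact h.2.1 y hy
    · rw [← hc z h1 h2]; exact h.2.2 z h1 h2
  | 0, .node S l r, D, hc, h => by
    refine ⟨h.1, fun z h1 h2 => ?_⟩
    rw [← hc z h1 h2]; exact h.2 z h1 h2
  | n + 1, .node S l r, D, hc, h => by
    obtain ⟨h0, h1, h3, h4, h6, ht, hcc, h7⟩ := h
    have hsub : ∀ D' ⊆ D, ∀ x, (∃ a ∈ D', a ≤ x) → (∃ b ∈ D', x ≤ b) → col x = col' x := by
      rintro D' hD' x ⟨a, ha, hax⟩ ⟨b, hb, hxb⟩
      exact hc x ⟨a, hD' ha, hax⟩ ⟨b, hD' hb, hxb⟩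
    have key : ∀ (T' : CT), ∀ D' ⊆ D, L col n T' D' → L col' n T' D' := fun T' D' hD' h' =>
      L_congr n T' (hsub D' hD') h'
    have hpt : ∀ y ∈ D, col y = col' y := fun y hy => hc y ⟨y, hy, le_rfl⟩ ⟨y, hy, le_rfl⟩
    refine ⟨key _ D subset_rfl h0, ?_, ?_, ?_, ?_, ?_, ?_, ?_⟩
    · intro ε
      obtain ⟨D', e1, e2⟩ := h1 ε
      exact ⟨D', e1, key _ D' e1 e2⟩
    · intro H hH
      obtain ⟨D', e1, e2, e3⟩ := h3 H hH
      exact ⟨D', e1, key _ D' e1 e2, e3⟩
    · obtain ⟨x, hx, D', e1, e2, e3⟩ := h4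
      exact ⟨x, hx, D', e1, key _ D' e1 e2, e3⟩
    · intro K f hK hf
      obtain ⟨D', e1, e2, φ, e3⟩ := h6 K f hK hf
      refine ⟨D', e1, key _ D' e1 e2, φ, fun y hy => ?_⟩
      rw [← hpt y (e1 hy)]; exact e3 y hy
    · intro T' hT'
      obtain ⟨D', e1, e2, e3⟩ := ht T' hT'
      refine ⟨D', e1, key _ D' e1 e2, fun y hy => ?_⟩
      rw [← hpt y (e1 hy)]; exact e3 y hy
    · intro k c hk
      obtain ⟨T', f1, f2, D', e1, e2, e3⟩ := hcc k c hk
      refine ⟨T', f1, f2, D', e1, key _ D' e1 e2, ?_⟩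
      intro S' hS' x hx y hy y' hy' hxy hyy' hxS hyS
      refine e3 S' hS' x hx y hy y' hy' hxy hyy' ?_ ?_
      · rw [hpt x (e1 hx)]; exact hxS
      · intro z h1 h2
        rw [hc z ⟨y, e1 hy, h1⟩ ⟨y', e1 hy', h2⟩]
        exact hyS z h1 h2
    · intro k h X hk
      rcases h7 k h X hk with ⟨v, e1, e2, E, hE, hL, hX⟩ | ⟨B, T', e1, e2, e3, E, hE, hL, hB,
          ⟨x, hx, ⟨⟨a, ha, hax⟩, b, hb, hxb⟩, hxB⟩, x', hx', ⟨⟨a', ha', hax'⟩, b', hb', hxb'⟩, hxB'⟩
      · exact Or.inl ⟨v, e1, e2, E, hE, key _ E hE hL, hX⟩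
      · refine Or.inr ⟨B, T', e1, e2, e3, E, hE, key _ E hE hL, ?_,
          ⟨x, hx, ⟨⟨a, ha, hax⟩, b, hb, hxb⟩, ?_⟩,
          x', hx', ⟨⟨a', ha', hax'⟩, b', hb', hxb'⟩, ?_⟩
        · intro y hy y' hy' hyy'
          obtain ⟨⟨w, hw, hw1, hw2, hw3⟩, w', hw', hw1', hw2', hw3'⟩ := hB y hy y' hy' hyy'
          refine ⟨⟨w, hw, hw1, hw2, ?_⟩, w', hw', hw1', hw2', ?_⟩
          · rw [← hc w ⟨y, hE hy, hw1⟩ ⟨y', hE hy', hw2⟩]; exact hw3
          · rw [← hc w' ⟨y, hE hy, hw1'⟩ ⟨y', hE hy', hw2'⟩]; exact hw3'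
        · rw [← hc x ⟨a, ha, hax⟩ ⟨b, hb, hxb⟩]; exact hxB
        · rw [← hc x' ⟨a', ha', hax'⟩ ⟨b', hb', hxb'⟩]; exact hxB'

/-- existence of large sets for a suitable colouring -/
theorem exists_large : ∀ (T : CT), T.WF → ∀ n m : ℕ, ∃ (col : ℕ → ℕ) (D : Finset ℕ),
    (∀ x ∈ D, m < x) ∧ L col n T D
  | .leaf S a, hT => by
    intro n m
    refine ⟨fun _ => a, {m + 1}, ?_, ?_⟩
    · intro x hx
      rw [Finset.mem_singleton.mp hx]; omega
    · rw [L_leaf]
      exact ⟨Finset.singleton_nonempty _, fun _ _ => rfl, fun _ _ _ => hT⟩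
  | .node S l r, hT => by
    classical
    have ih : ∀ (ε : Bool) (n m : ℕ), ∃ (col : ℕ → ℕ) (D : Finset ℕ),
        (∀ x ∈ D, m < x) ∧ L col n (sub l r ε) D := by
      intro ε
      cases ε
      · exact exists_large l hT.2.2.2.1
      · exact exists_large r hT.2.2.2.2
    choose cc DD hD1 hD2 using ih
    obtain ⟨a0, ha0⟩ := lv_nonempty (.node S l r)
    have ha0S : a0 ∈ S := WF.lv_sub hT ha0
    let req : ℕ → ℕ × Bool := fun j => (Encodable.decode (α := ℕ × Bool) j.unpair.1).getD (0, false)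
    let a : ℕ → ℕ := fun j => Nat.rec (motive := fun _ => ℕ) 0
      (fun j a => (DD (req j).2 (req j).1 a).sup id) j
    have ha : ∀ j, a (j + 1) = (DD (req j).2 (req j).1 (a j)).sup id := fun j => rfl
    have hDj : ∀ j, ∀ x ∈ DD (req j).2 (req j).1 (a j), a j < x ∧ x ≤ a (j + 1) := by
      intro j x hx
      refine ⟨hD1 _ _ _ x hx, ?_⟩
      rw [ha]
      exact Finset.le_sup (f := id) hx
    have ha' : ∀ j, a j < a (j + 1) := by
      intro j
      obtain ⟨x, hx⟩ := L_ne (hD2 (req j).2 (req j).1 (a j))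
      have := hDj j x hx
      omega
    have hamono : StrictMono a := strictMono_nat_of_lt_succ ha'
    have hex : ∀ x, ∃ j, x ≤ a (j + 1) := fun x => ⟨x, (Nat.le_succ x).trans
      (hamono.id_le (x + 1))⟩
    let jj : ℕ → ℕ := fun x => Nat.find (hex x)
    have hjj : ∀ j x, a j < x → x ≤ a (j + 1) → jj x = j := by
      intro j x h1 h2
      refine le_antisymm (Nat.find_min' (hex x) h2) ?_
      by_contra hcon
      push Not at hcon
      have h3 : x ≤ a (jj x + 1) := Nat.find_spec (hex x)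
      have h4 : a (jj x + 1) ≤ a j := hamono.monotone hcon
      omega
    let E : ℕ → Finset ℕ := fun j => DD (req j).2 (req j).1 (a j)
    let col : ℕ → ℕ := fun x =>
      if ∃ b ∈ E (jj x), b ≤ x then cc (req (jj x)).2 (req (jj x)).1 (a (jj x)) x else a0
    have hcol : ∀ j x, (∃ b ∈ E j, b ≤ x) → (∃ b ∈ E j, x ≤ b) →
        col x = cc (req j).2 (req j).1 (a j) x := by
      rintro j x ⟨b, hb, hbx⟩ ⟨b', hb', hxb'⟩
      have h1 := hDj j b hb
      have h2 := hDj j b' hb'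
      have h3 : jj x = j := hjj j x (by omega) (by omega)
      simp only [col, h3]
      rw [if_pos ⟨b, hb, hbx⟩]
    have hcolS : ∀ x, col x ∈ S := by
      intro x
      simp only [col]
      split
      · next h =>
        refine sub_rng hT _ (L_Cv (hD2 (req (jj x)).2 (req (jj x)).1 (a (jj x))) x h ?_)
        obtain ⟨y, hy⟩ := L_ne (hD2 (req (jj x)).2 (req (jj x)).1 (a (jj x)))
        have h3 : x ≤ a (jj x + 1) := Nat.find_spec (hex x)
        rw [ha] at h3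
        obtain ⟨y', hy', hy''⟩ := Finset.exists_mem_eq_sup _ ⟨y, hy⟩ id
        exact ⟨y', hy', by rw [hy''] at h3; exact h3⟩
      · exact ha0S
    have hLL : ∀ m, LL col S l r {x | m < x} := by
      intro m
      refine ⟨fun z _ => hcolS z, ?_⟩
      intro n ε m'
      let j := Nat.pair (Encodable.encode (n, ε)) (max m m' + 1)
      have hreq : req j = (n, ε) := by simp [req, j]
      have hjm : max m m' + 1 ≤ j := Nat.right_le_pair _ _
      have haj : j ≤ a j := hamono.id_le j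
      have hlt : ∀ x ∈ E j, max m m' < x := by
        intro x hx
        have := (hDj j x hx).1
        omega
      refine ⟨E j, fun x hx => lt_of_le_of_lt (le_max_left _ _) (hlt x hx),
        fun x hx => lt_of_le_of_lt (le_max_right _ _) (hlt x hx), ?_⟩
      have h1 := hD2 (req j).2 (req j).1 (a j)
      have h2 : L col (req j).1 (sub l r (req j).2) (E j) :=
        L_congr _ _ (fun x e1 e2 => (hcol j x e1 e2).symm) h1
      rw [hreq] at h2
      exact h2
    intro n m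
    obtain ⟨t, ht⟩ := LL.game n S l r _ hT (hLL m)
    exact ⟨col, cut {x | m < x} t, fun x hx => (mem_cut.mp hx).2, ht⟩

/-! ### full trees -/

/-- the full tree of height `k` with colours from `a` on -/
def pt : ℕ → ℕ → CT
  | 0, a => .leaf {a} a
  | k + 1, a => .node (Finset.Ico a (a + 2 ^ (k + 1))) (pt k a) (pt k (a + 2 ^ k))

theorem pt_rng : ∀ k a, (pt k a).rng = Finset.Ico a (a + 2 ^ k)
  | 0, a => by
    ext x
    simp [pt, CT.rng]
  | k + 1, a => rfl

theorem pt_WF : ∀ k a, (pt k a).WF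
  | 0, a => Finset.mem_singleton_self a
  | k + 1, a => by
    refine ⟨?_, ?_, ?_, pt_WF k a, pt_WF k _⟩
    · rw [pt_rng]
      exact Finset.Ico_subset_Ico_right (by rw [pow_succ]; omega)
    · rw [pt_rng]
      exact Finset.Ico_subset_Ico (Nat.le_add_right _ _) (by rw [pow_succ]; omega)
    · rw [pt_rng, pt_rng]
      exact Finset.Ico_disjoint_Ico_consecutive _ _ _

theorem pt_perf : ∀ k a, perf k (pt k a)
  | 0, _ => trivial
  | k + 1, a => ⟨pt_perf k a, pt_perf k _⟩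

end Pool.Agent.KS6_49.CW.CR
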