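import Pool.Agent.KS6_49.CW.Mod5
import Pool.Agent.KS6_49.CW.More

/-!
Failure of cohesiveness for sequences of bounded length.
-/

namespace Pool.Agent.KS6_49.CW.CR

open Filter CT Pool.Agent.KS6_49.CW.RM

variable [Par]

theorem not_fincoh : ¬ FinCOH PP := by
  intro h
  have hE13 : ∀ t, E (.op 13 .idx) t = MB t := by
    intro t
    show ev _ _ _ = _
    simp [ev, opf]
  have hbM : Bdd (.op 13 .idx) := bdd_MB fun t => by rw [hE13]
  obtain ⟨C, ⟨K, hK⟩, hinf, hcoh⟩ := h (mkp (cAdd (.op 13 .idx) (.nat 1))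
    (bdd_add hbM (bdd_nat 1))) RS RS_mem
  obtain ⟨k, _, hreq⟩ := req_inf (3, K) 0
  have hsp : Ev fun t => (∀ x ∈ dec (E K t), ¬ ((∃ a ∈ (st (k + 1) t).1, a ≤ x) ∧
        (∃ b ∈ (st (k + 1) t).1, x ≤ b))) ∨
        ∃ B ⊆ Finset.range (NC t), Btw (cl t) (dec (E K t) : Set ℕ) B
          ((st (k + 1) t).1 : Set ℕ) := by
    refine (Ev.ge (k + 1)).mono fun t ht => ?_
    rw [st_succ, hreq]
    exact (stepSplit_spec (inv_st' ht) (E K t)).2.2.2.2
  rw [Ev.or_iff] at hsp
  rcases hsp with hA | hB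
  · -- the set is bounded
    obtain ⟨j, hj, hadv⟩ := adv (k + 1)
    apply hinf
    refine ⟨mkp (uC (j + 1)) (bdd_uC _), fun x hx => ?_⟩
    by_contra hcon
    rw [not_lt'] at hcon
    have hxK := (hK x).mp hx
    refine ((hcon.and (rp_mkp (uC (j + 1)) (bdd_uC _))).mono3 (hxK.and hA)
      (in_hull hj (fun t ht => (hadv t ht).2) x) ?_).false
    rintro t ⟨h1, h2⟩ ⟨h3, h4⟩ h5
    rw [h2, E_uC] at h1
    exact h4 _ h3 (h5 _ h1 le_rfl)
  · -- the set is split
    let ic : Cd := .op 14 (.pair .idx (.pair (yC (k + 1)) K))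
    have hic : ∀ t, E ic t = witB t (E (yC (k + 1)) t) (E K t) := by
      intro t
      show ev _ _ _ = _
      simp [ic, ev, opf]
      rfl
    have hib : Bdd ic := bdd_MB fun t => by rw [hic]; exact witB_le _ _ _
    let i : PP.M := mkp ic hib
    have hi : Ev fun t => Btw (cl t) (dec (E K t) : Set ℕ) (dec (rp i t))
        ((st (k + 1) t).1 : Set ℕ) := by
      refine (rp_mkp ic hib).mono2 hB fun t h1 h2 => ?_
      show Btw _ _ (dec (rp (mkp ic hib) t)) _
      rw [h1, hic]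
      have h3 := witB_spec (t := t) (D := E (yC (k + 1)) t) (K := E K t) (by
        rw [E_yC]; exact h2)
      rw [E_yC] at h3
      exact h3
    -- elements beyond `b`
    have key : ∀ b : PP.M, (∃ z ∈ C, ¬ PP.lt z b ∧ PP.pair i z ∈ RS) ∧
        ∃ z ∈ C, ¬ PP.lt z b ∧ PP.pair i z ∉ RS := by
      intro b
      obtain ⟨y1, hy1, hy1'⟩ := stage_infinite (k + 1) b
      obtain ⟨y2, hy2, hy2'⟩ := stage_infinite (k + 1) (PP.add y1 PP.one)
      rw [not_lt'] at hy1 hy2
      have h12 : Ev fun t => rp y1 t < rp y2 t :=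
        hy2.mono3 (rv_add y1 PP.one) rv_one fun t h1 h2 h3 => by
          rw [h2, h3] at h1; omega
      have hbt := (hy1'.and hy2').mono3 h12 hi fun t h1 h2 h3 =>
        h3 (rp y1 t) h1.1 (rp y2 t) h1.2 h2
      have ecl : ∀ t x, ev (.op 12 (.pair .idx .var)) t (consN x fun _ => 0) = cl t x := by
        intro t x
        simp [ev, opf, consN]
      have ebd : ∀ t, E (cAdd (rc y2) (.nat 1)) t = rp y2 t + 1 := by
        intro t
        show ev _ _ _ = _
        rw [ev_cAdd]; rfl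
      have hbd : Bdd (cAdd (rc y2) (.nat 1)) := bdd_add (rc_bdd y2) (bdd_nat 1)
      constructor
      · obtain ⟨z, hz⟩ := wit (cAdd (rc y2) (.nat 1))
          (cAnd (cLt (.clo (rc y1)) (cAdd .var (.nat 1)))
            (cAnd (cMem .var (.clo K)) (cMem (.op 12 (.pair .idx .var)) (.clo (rc i))))) hbd
          (hbt.mono fun t ht => by
            obtain ⟨x, hx, hx1, hx2, hx3⟩ := ht.1
            refine ⟨x, by rw [ebd]; omega, ?_⟩
            rw [tr_cAnd, tr_cAnd, tr_cLt, tr_cMem, tr_cMem, ecl, ev_cAdd, ev_clo, ev_clo, ev_clo,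
              ev_var, ev_nat, consN_zero, E_rc, E_rc]
            exact ⟨by omega, hx, hx3⟩)
        have hz' : Ev fun t => rp y1 t ≤ rp z t ∧ rp z t ∈ dec (E K t) ∧
            cl t (rp z t) ∈ dec (rp i t) := hz.mono fun t ht => by
          have := ht.2.1
          rw [tr_cAnd, tr_cAnd, tr_cLt, tr_cMem, tr_cMem, ecl, ev_cAdd, ev_clo, ev_clo, ev_clo,
              ev_var, ev_nat, consN_zero, E_rc, E_rc] at this
          exact ⟨by omega, this.2⟩
        refine ⟨z, (hK z).mpr (hz'.mono fun t h => h.2.1), ?_, ?_⟩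
        · rw [not_lt']
          exact hz'.mono2 hy1 fun t h1 h2 => h2.trans h1.1
        · rw [mem_RS]
          exact hz'.mono fun t h => h.2.2
      · obtain ⟨z, hz⟩ := wit (cAdd (rc y2) (.nat 1))
          (cAnd (cLt (.clo (rc y1)) (cAdd .var (.nat 1)))
            (cAnd (cMem .var (.clo K))
              (cNot (cMem (.op 12 (.pair .idx .var)) (.clo (rc i)))))) hbd
          (hbt.mono fun t ht => by
            obtain ⟨x, hx, hx1, hx2, hx3⟩ := ht.2
            refine ⟨x, by rw [ebd]; omega, ?_⟩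
            rw [tr_cAnd, tr_cAnd, tr_cLt, tr_cMem, tr_cNot, tr_cMem, ecl, ev_cAdd, ev_clo, ev_clo,
              ev_clo, ev_var, ev_nat, consN_zero, E_rc, E_rc]
            exact ⟨by omega, hx, hx3⟩)
        have hz' : Ev fun t => rp y1 t ≤ rp z t ∧ rp z t ∈ dec (E K t) ∧
            ¬ cl t (rp z t) ∈ dec (rp i t) := hz.mono fun t ht => by
          have := ht.2.1
          rw [tr_cAnd, tr_cAnd, tr_cLt, tr_cMem, tr_cNot, tr_cMem, ecl, ev_cAdd, ev_clo, ev_clo,
              ev_clo, ev_var, ev_nat, consN_zero, E_rc, E_rc] at this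
          exact ⟨by omega, this.2⟩
        refine ⟨z, (hK z).mpr (hz'.mono fun t h => h.2.1), ?_, ?_⟩
        · rw [not_lt']
          exact hz'.mono2 hy1 fun t h1 h2 => h2.trans h1.1
        · rw [mem_RS, ← Ev.not]
          exact hz'.mono fun t h => h.2.2
    have hia : PP.lt i (mkp (cAdd (.op 13 .idx) (.nat 1)) (bdd_add hbM (bdd_nat 1))) := by
      rw [pp_lt']
      refine (rp_mkp ic hib).mono2 (rp_mkp (cAdd (.op 13 .idx) (.nat 1))
        (bdd_add hbM (bdd_nat 1))) fun t h1 h2 => ?_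
      have h3 : E (cAdd (.op 13 .idx) (.nat 1)) t = MB t + 1 := by
        show ev _ _ _ = _
        rw [ev_cAdd, ev_nat]
        show E (.op 13 .idx) t + 1 = _
        rw [hE13]
      show rp (mkp ic hib) t < _
      rw [h1, h2, hic, h3]
      have := witB_le t (E (yC (k + 1)) t) (E K t)
      omega
    rcases hcoh i hia with ⟨b, hb⟩ | ⟨b, hb⟩
    · obtain ⟨z, hzC, hz1, hz2⟩ := (key b).1
      exact hz1 (hb z ⟨hzC, hz2⟩)
    · obtain ⟨z, hzC, hz1, hz2⟩ := (key b).2
      exact hz1 (hb z ⟨hzC, hz2⟩)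

theorem not_coh : ¬ COH PP := by
  intro h
  refine not_fincoh fun _ R hR => ?_
  obtain ⟨C, h1, h2, h3⟩ := h R hR
  exact ⟨C, h1, h2, fun i _ => h3 i⟩

end Pool.Agent.KS6_49.CW.CR
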