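import Pool.Agent.KS6_49.CW.Tree

/-!
Large finite sets relative to a tree of colours, and their infinite versions.
-/

namespace Pool.Agent.KS6_49.CW.CR

open CT

/-- all points of the convex hull have colours in `S` -/
def Cv (col : ℕ → ℕ) (S : Finset ℕ) (D : Finset ℕ) : Prop :=
  ∀ z, (∃ a ∈ D, a ≤ z) → (∃ b ∈ D, z ≤ b) → col z ∈ S

/-- the colouring `c` of pairs is constant on intervals inside the parts not containing `x` -/
def Star (col : ℕ → ℕ) (c : ℕ → ℕ → Bool) (T : CT) (Y : Set ℕ) : Prop :=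
  ∀ S ∈ T.rgs, ∀ x ∈ Y, ∀ y ∈ Y, ∀ y' ∈ Y, x < y → y < y' → col x ∉ S →
    (∀ z, y ≤ z → z ≤ y' → col z ∈ S) → c x y = c x y'

/-- between any two points of `Y` there are points of `X` with colour in `B` and not in `B` -/
def Btw (col : ℕ → ℕ) (X : Set ℕ) (B : Finset ℕ) (Y : Set ℕ) : Prop :=
  ∀ y ∈ Y, ∀ y' ∈ Y, y < y' → (∃ x ∈ X, y ≤ x ∧ x ≤ y' ∧ col x ∈ B) ∧
    ∃ x ∈ X, y ≤ x ∧ x ≤ y' ∧ col x ∉ B

/-- a sequence of functions; the parameter of the construction -/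
class Par : Type where
  g : ℕ → ℕ → ℕ

variable [Par]

/-- the growth function -/
def FF (x : ℕ) : ℕ := x ^ 2 + 2 * x + 2 +
  ∑ k ∈ Finset.range (x + 1), ∑ w ∈ Finset.range (x + 1), Par.g k w

section moves
variable (col : ℕ → ℕ) (G : CT → Finset ℕ → Prop) (T : CT) (Y : Finset ℕ)

def M3 : Prop := ∀ H : Finset ℕ, (∀ y ∈ Y, H.card ≤ y) →
  ∃ Y' ⊆ Y, G T Y' ∧ ∀ h ∈ H, (∀ y ∈ Y', h < y) ∨ (∀ y ∈ Y', y < h)

def M4 : Prop := ∃ x ∈ Y, ∃ Y' ⊆ Y, G T Y' ∧ ∀ y ∈ Y', FF x ≤ y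

def M6 : Prop := ∀ (K : ℕ) (f : ℕ → ℕ), (∀ y ∈ Y, K ≤ y) → (∀ x, f x < K) →
  ∃ Y' ⊆ Y, G T Y' ∧ ∃ φ : ℕ → ℕ, ∀ y ∈ Y', f y = φ (col y)

def Mt : Prop := ∀ T', Emb false T' T → ∃ Y' ⊆ Y, G T' Y' ∧ ∀ y ∈ Y', col y ∈ T'.lv

def Mc : Prop := ∀ (k : ℕ) (c : ℕ → ℕ → Bool), perf (gg k) T →
  ∃ T', Emb true T' T ∧ perf k T' ∧ ∃ Y' ⊆ Y, G T' Y' ∧ Star col c T' (Y' : Set ℕ)

def M7 : Prop := ∀ (k h : ℕ) (X : Set ℕ), perf (k + h + 1) T →
  (∃ v, Emb false v T ∧ perf h v ∧ ∃ D ⊆ Y, G v D ∧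
    ∀ x ∈ X, ¬ ((∃ a ∈ D, a ≤ x) ∧ (∃ b ∈ D, x ≤ b))) ∨
  ∃ (B : Finset ℕ) (T' : CT), Emb true T' T ∧ perf k T' ∧ B ⊆ T.rng ∧
    ∃ Y' ⊆ Y, G T' Y' ∧ Btw col X B (Y' : Set ℕ) ∧
    (∃ x ∈ X, ((∃ a ∈ Y, a ≤ x) ∧ (∃ b ∈ Y, x ≤ b)) ∧ col x ∈ B) ∧
    ∃ x ∈ X, ((∃ a ∈ Y, a ≤ x) ∧ (∃ b ∈ Y, x ≤ b)) ∧ col x ∉ B

end moves

/-- sub tree -/
def sub (l r : CT) (ε : Bool) : CT := if ε then r else l

/-- large finite sets -/
def L (col : ℕ → ℕ) : ℕ → CT → Finset ℕ → Prop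
  | 0, .leaf S a, D => D.Nonempty ∧ (∀ y ∈ D, col y = a) ∧ Cv col S D
  | 0, .node S _ _, D => D.Nonempty ∧ Cv col S D
  | _ + 1, .leaf S a, D => D.Nonempty ∧ (∀ y ∈ D, col y = a) ∧ Cv col S D
  | n + 1, .node S l r, D => L col n (.node S l r) D ∧ (∀ ε, ∃ D' ⊆ D, L col n (sub l r ε) D') ∧
      M3 (L col n) (.node S l r) D ∧ M4 (L col n) (.node S l r) D ∧
      M6 col (L col n) (.node S l r) D ∧ Mt col (L col n) (.node S l r) D ∧
      Mc col (L col n) (.node S l r) D ∧ M7 col (L col n) (.node S l r) D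

variable {col : ℕ → ℕ}

theorem L_leaf (n : ℕ) (S : Finset ℕ) (a : ℕ) (D : Finset ℕ) : L col n (.leaf S a) D ↔
    D.Nonempty ∧ (∀ y ∈ D, col y = a) ∧ Cv col S D := by
  cases n <;> exact Iff.rfl

theorem Cv.mono {S D D' : Finset ℕ} (h : Cv col S D) (hs : D' ⊆ D) : Cv col S D' := by
  rintro z ⟨a, ha, haz⟩ ⟨b, hb, hzb⟩
  exact h z ⟨a, hs ha, haz⟩ ⟨b, hs hb, hzb⟩

theorem Cv.mem {S D : Finset ℕ} (h : Cv col S D) {x : ℕ} (hx : x ∈ D) : col x ∈ S :=
  h x ⟨x, hx, le_rfl⟩ ⟨x, hx, le_rfl⟩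

theorem L_anti : ∀ {n : ℕ} {T : CT} {D : Finset ℕ}, L col (n + 1) T D → L col n T D
  | n, .leaf S a, D, h => (L_leaf n S a D).mpr ((L_leaf (n + 1) S a D).mp h)
  | _, .node _ _ _, _, h => h.1

theorem L_le {n n' : ℕ} (hn : n ≤ n') {T : CT} {D : Finset ℕ} (h : L col n' T D) :
    L col n T D := by
  induction n', hn using Nat.le_induction with
  | base => exact h
  | succ k _ ih => exact ih (L_anti h)

theorem L_ne : ∀ {n : ℕ} {T : CT} {D : Finset ℕ}, L col n T D → D.Nonempty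
  | 0, .leaf _ _, _, h => h.1
  | _ + 1, .leaf _ _, _, h => h.1
  | 0, .node _ _ _, _, h => h.1
  | _ + 1, .node _ _ _, _, h => L_ne h.1

theorem L_Cv : ∀ {n : ℕ} {T : CT} {D : Finset ℕ}, L col n T D → Cv col T.rng D
  | 0, .leaf _ _, _, h => h.2.2
  | _ + 1, .leaf _ _, _, h => h.2.2
  | 0, .node _ _ _, _, h => h.2
  | _ + 1, .node _ _ _, _, h => L_Cv h.1

theorem L_mono : ∀ {n : ℕ} {S : Finset ℕ} {l r : CT} {D D' : Finset ℕ},
    L col n (.node S l r) D → D ⊆ D' → Cv col S D' → L col n (.node S l r) D'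
  | 0, _, _, _, _, _, h, hs, hC => ⟨h.1.mono hs, hC⟩
  | n + 1, S, l, r, D, D', h, hs, hC => by
    obtain ⟨h0, h1, h3, h4, h6, ht, hc, h7⟩ := h
    refine ⟨L_mono h0 hs hC, ?_, ?_, ?_, ?_, ?_, ?_, ?_⟩
    · intro ε
      obtain ⟨E, hE, hL⟩ := h1 ε
      exact ⟨E, hE.trans hs, hL⟩
    · intro H hH
      obtain ⟨E, hE, hL⟩ := h3 H (fun y hy => hH y (hs hy))
      exact ⟨E, hE.trans hs, hL⟩
    · obtain ⟨x, hx, E, hE, hL⟩ := h4
      exact ⟨x, hs hx, E, hE.trans hs, hL⟩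
    · intro K f hK hf
      obtain ⟨E, hE, hL⟩ := h6 K f (fun y hy => hK y (hs hy)) hf
      exact ⟨E, hE.trans hs, hL⟩
    · intro T' hT'
      obtain ⟨E, hE, hL⟩ := ht T' hT'
      exact ⟨E, hE.trans hs, hL⟩
    · intro k c hk
      obtain ⟨T', e1, e2, E, hE, hL⟩ := hc k c hk
      exact ⟨T', e1, e2, E, hE.trans hs, hL⟩
    · intro k h X hk
      rcases h7 k h X hk with ⟨v, e1, e2, E, hE, hL⟩ | ⟨B, T', e1, e2, e3, E, hE, hL, hB,
          ⟨x, hx, ⟨⟨a, ha, hax⟩, b, hb, hxb⟩, hxB⟩, x', hx', ⟨⟨a', ha', hax'⟩, b', hb', hxb'⟩, hxB'⟩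
      · exact Or.inl ⟨v, e1, e2, E, hE.trans hs, hL⟩
      · exact Or.inr ⟨B, T', e1, e2, e3, E, hE.trans hs, hL, hB,
          ⟨x, hx, ⟨⟨a, hs ha, hax⟩, b, hs hb, hxb⟩, hxB⟩,
          x', hx', ⟨⟨a', hs ha', hax'⟩, b', hs hb', hxb'⟩, hxB'⟩

/-! ### moves for arbitrary trees -/

theorem Emb.leaf_eq {b : Bool} {T' : CT} {S : Finset ℕ} {a : ℕ} (h : Emb b T' (.leaf S a)) :
    T' = .leaf S a := by
  have key : ∀ {b : Bool} {T'' T' : CT}, Emb b T'' T' → T' = .leaf S a →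
      T'' = .leaf S a := by
    intro b T'' T' h
    induction h with
    | @leaf T0 a0 h0 =>
      intro e
      subst e
      have : a0 = a := Finset.mem_singleton.mp h0
      rw [this]; rfl
    | node _ _ _ _ => intro e; cases e
    | here _ ih => exact ih
    | left _ _ => intro e; cases e
    | right _ _ => intro e; cases e
  exact key h rfl

theorem leaf_single {n m : ℕ} {S : Finset ℕ} {a : ℕ} {D : Finset ℕ}
    (h : L col n (.leaf S a) D) {y : ℕ} (hy : y ∈ D) : L col m (.leaf S a) {y} := by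
  rw [L_leaf] at h ⊢
  refine ⟨Finset.singleton_nonempty y, ?_, h.2.2.mono (Finset.singleton_subset_iff.mpr hy)⟩
  intro z hz
  rw [Finset.mem_singleton.mp hz]
  exact h.2.1 y hy

theorem F6 : ∀ {n : ℕ} {T : CT} {D : Finset ℕ}, L col (n + 1) T D → M6 col (L col n) T D
  | n, .leaf S a, D, h => by
    intro K f _ _
    obtain ⟨y, hy⟩ := L_ne h
    refine ⟨{y}, Finset.singleton_subset_iff.mpr hy, leaf_single h hy, fun _ => f y, ?_⟩
    intro z hz
    rw [Finset.mem_singleton.mp hz]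
  | _, .node _ _ _, _, h => h.2.2.2.2.1

theorem Ft : ∀ {n : ℕ} {T : CT} {D : Finset ℕ}, L col (n + 1) T D → Mt col (L col n) T D
  | n, .leaf S a, D, h => by
    intro T' hT'
    rw [hT'.leaf_eq]
    refine ⟨D, subset_rfl, L_anti h, ?_⟩
    intro y hy
    rw [L_leaf] at h
    rw [h.2.1 y hy]
    exact Finset.mem_singleton_self a
  | _, .node _ _ _, _, h => h.2.2.2.2.2.1

theorem Star.single (c : ℕ → ℕ → Bool) (T : CT) (y : ℕ) :
    Star col c T (({y} : Finset ℕ) : Set ℕ) := by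
  intro S _ x hx y' hy' _ _ hxy
  rw [Finset.coe_singleton, Set.mem_singleton_iff] at hx hy'
  omega

theorem Fc : ∀ {n : ℕ} {T : CT} {D : Finset ℕ}, L col (n + 1) T D → Mc col (L col n) T D
  | n, .leaf S a, D, h => by
    intro k c hk
    cases k with
    | zero =>
      obtain ⟨y, hy⟩ := L_ne h
      exact ⟨.leaf S a, .refl _, trivial, {y}, Finset.singleton_subset_iff.mpr hy,
        leaf_single h hy, Star.single c _ y⟩
    | succ k => exact absurd hk (by simp [perf, gg])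
  | _, .node _ _ _, _, h => h.2.2.2.2.2.2.1

theorem F7 : ∀ {n : ℕ} {T : CT} {D : Finset ℕ}, L col (n + 1) T D → M7 col (L col n) T D
  | _, .leaf _ _, _, _ => by
    intro k h X hk
    exact absurd hk (by simp [perf])
  | _, .node _ _ _, _, h => h.2.2.2.2.2.2.2

/-! ### infinite sets -/

/-- infinite large sets -/
def LL (col : ℕ → ℕ) (S : Finset ℕ) (l r : CT) (Z : Set ℕ) : Prop :=
  (∀ z, (∃ a ∈ Z, a ≤ z) → col z ∈ S) ∧ ∀ (n : ℕ) (ε : Bool) (m : ℕ), ∃ D : Finset ℕ,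
    (D : Set ℕ) ⊆ Z ∧ (∀ x ∈ D, m < x) ∧ L col n (sub l r ε) D

variable {S : Finset ℕ} {l r : CT} {Z : Set ℕ}

theorem LL.exists_gt (hZ : LL col S l r Z) (m : ℕ) : ∃ x ∈ Z, m < x := by
  obtain ⟨D, h1, h2, h3⟩ := hZ.2 0 true m
  obtain ⟨x, hx⟩ := L_ne h3
  exact ⟨x, h1 hx, h2 x hx⟩

theorem LL.tail (hZ : LL col S l r Z) (m : ℕ) : LL col S l r (Z ∩ {x | m < x}) := by
  refine ⟨?_, ?_⟩
  · rintro z ⟨a, ha, haz⟩
    exact hZ.1 z ⟨a, ha.1, haz⟩
  · intro n ε m'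
    obtain ⟨D, hD, hm, hB⟩ := hZ.2 n ε (max m m')
    refine ⟨D, fun x hx => ⟨hD hx, ?_⟩, fun x hx => ?_, hB⟩
    · exact lt_of_le_of_lt (le_max_left _ _) (hm x hx)
    · exact lt_of_le_of_lt (le_max_right _ _) (hm x hx)

/-- pigeonhole: one of finitely many labels works for blocks of all levels -/
theorem pigeon (T : CT) (Z : Set ℕ) {ι : Type} [Finite ι] (R : ι → CT) (Q : ι → Finset ℕ → Prop)
    (h : ∀ n m, ∃ D : Finset ℕ, (D : Set ℕ) ⊆ Z ∧ (∀ x ∈ D, m < x) ∧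
      ∃ i, L col n (R i) D ∧ Q i D) :
    ∃ i, ∀ n m, ∃ D : Finset ℕ, (D : Set ℕ) ⊆ Z ∧ (∀ x ∈ D, m < x) ∧ L col n (R i) D ∧ Q i D := by
  classical
  by_contra hcon
  push Not at hcon
  choose nn mm hnm using hcon
  have := Fintype.ofFinite ι
  obtain ⟨D, hD, hm, i, hB, hi⟩ := h (Finset.univ.sup nn) (Finset.univ.sup mm)
  refine hnm i D hD (fun x hx => lt_of_le_of_lt (Finset.le_sup (Finset.mem_univ i)) (hm x hx)) ?_ hi
  exact L_le (Finset.le_sup (Finset.mem_univ i)) hB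

theorem sub_rng (hT : (CT.node S l r).WF) (ε : Bool) : (sub l r ε).rng ⊆ S := by
  cases ε
  · exact hT.1
  · exact hT.2.1

theorem sub_disj (hT : (CT.node S l r).WF) {ε ε' : Bool} {a : ℕ} (h : a ∈ (sub l r ε).rng)
    (h' : a ∈ (sub l r ε').rng) : ε = ε' := by
  have h3 := hT.2.2.1
  cases ε <;> cases ε'
  · rfl
  · exact absurd h' (Finset.disjoint_left.mp h3 h)
  · exact absurd h (Finset.disjoint_left.mp h3 h')
  · rfl

/-- points: a colouring depends only on the colour -/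
theorem LL.points (hT : (CT.node S l r).WF) (hZ : LL col S l r Z) (K : ℕ) (f : ℕ → ℕ)
    (hf : ∀ x, f x < K) : ∃ Z' ⊆ Z, LL col S l r Z' ∧ ∃ φ : ℕ → ℕ, ∀ y ∈ Z', f y = φ (col y) := by
  classical
  have key : ∀ ε : Bool, ∃ φ : ℕ → ℕ, ∀ n m, ∃ D : Finset ℕ, (D : Set ℕ) ⊆ Z ∧
      (∀ x ∈ D, m < x) ∧ L col n (sub l r ε) D ∧ ∀ y ∈ D, f y = φ (col y) := by
    intro ε
    obtain ⟨φ, hφ⟩ := pigeon (col := col) (sub l r ε) Z
      (ι := (↥((sub l r ε).rng) → Fin K)) (fun _ => sub l r ε)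
      (fun φ D => ∀ y ∈ D, ∃ h : col y ∈ (sub l r ε).rng, f y = φ ⟨col y, h⟩) (by
        intro n m
        obtain ⟨D, hD, hm, hB⟩ := hZ.2 (n + 1) ε (max m K)
        obtain ⟨D', hD', hL', φ, hφ⟩ := F6 hB K f
          (fun x hx => ((le_max_right m K).trans_lt (hm x hx)).le) hf
        obtain ⟨y0, hy0⟩ := L_ne hL'
        refine ⟨D', (Finset.coe_subset.mpr hD').trans hD,
          fun x hx => (le_max_left m K).trans_lt (hm x (hD' hx)),
          fun a => if h : φ a < K then ⟨φ a, h⟩ else ⟨f y0, hf y0⟩, hL', ?_⟩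
        intro y hy
        refine ⟨(L_Cv hL').mem hy, ?_⟩
        have h1 : φ (col y) < K := by rw [← hφ y hy]; exact hf y
        simp only [h1, dif_pos]
        exact hφ y hy)
    refine ⟨fun a => if h : a ∈ (sub l r ε).rng then φ ⟨a, h⟩ else 0, fun n m => ?_⟩
    obtain ⟨D, h1, h2, h3, h4⟩ := hφ n m
    refine ⟨D, h1, h2, h3, fun y hy => ?_⟩
    obtain ⟨h5, h6⟩ := h4 y hy
    rw [h6]
    simp [h5]
  choose φ hφ using key
  let ψ : ℕ → ℕ := fun a => if a ∈ (sub l r false).rng then φ false a else φ true a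
  refine ⟨{z | z ∈ Z ∧ f z = ψ (col z)}, fun z hz => hz.1, ⟨?_, ?_⟩, ψ, fun z hz => hz.2⟩
  · rintro z ⟨a, ha, haz⟩
    exact hZ.1 z ⟨a, ha.1, haz⟩
  · intro n ε m
    obtain ⟨D, h1, h2, h3, h4⟩ := hφ ε n m
    refine ⟨D, fun y hy => ⟨h1 hy, ?_⟩, h2, h3⟩
    rw [h4 y hy]
    have hc := (L_Cv h3).mem hy
    simp only [ψ]
    cases ε
    · rw [if_pos hc]
    · rw [if_neg]
      intro h5
      exact absurd (sub_disj hT h5 hc) (by decide)

/-- points with an arbitrary finite palette -/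
theorem LL.points' (hT : (CT.node S l r).WF) (hZ : LL col S l r Z) {α : Type} [Finite α]
    [Nonempty α] (f : ℕ → α) :
    ∃ Z' ⊆ Z, LL col S l r Z' ∧ ∃ φ : ℕ → α, ∀ y ∈ Z', f y = φ (col y) := by
  classical
  have := Fintype.ofFinite α
  let e := Fintype.equivFin α
  obtain ⟨Z', h1, h2, φ, hφ⟩ := hZ.points hT (Fintype.card α) (fun x => (e (f x) : ℕ))
    (fun x => (e (f x)).2)
  refine ⟨Z', h1, h2, fun a => if h : φ a < Fintype.card α then e.symm ⟨φ a, h⟩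
    else Classical.arbitrary α, ?_⟩
  intro y hy
  have h3 := hφ y hy
  have h4 : φ (col y) < Fintype.card α := by rw [← h3]; exact (e (f y)).2
  simp only [h4, dif_pos]
  rw [Equiv.eq_symm_apply]
  exact Fin.ext h3

/-- thinning to a smaller tree -/
theorem LL.thin (hZ : LL col S l r Z) {l' r' : CT} (hl : Emb false l' l) (hr : Emb false r' r) :
    ∃ Z' ⊆ Z, LL col S l' r' Z' ∧ ∀ z ∈ Z', col z ∈ (CT.node S l' r').lv := by
  refine ⟨{z | z ∈ Z ∧ col z ∈ (CT.node S l' r').lv}, fun z hz => hz.1, ⟨?_, ?_⟩,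
    fun z hz => hz.2⟩
  · rintro z ⟨a, ha, haz⟩
    exact hZ.1 z ⟨a, ha.1, haz⟩
  · intro n ε m
    obtain ⟨D, h1, h2, h3⟩ := hZ.2 (n + 1) ε m
    obtain ⟨D', h4, h5, h6⟩ := Ft h3 (sub l' r' ε) (by
      cases ε
      · exact hl
      · exact hr)
    refine ⟨D', fun z hz => ⟨h1 (h4 hz), ?_⟩, fun x hx => h2 x (h4 hx), h5⟩
    have := h6 z hz
    cases ε
    · exact Finset.mem_union_left _ this
    · exact Finset.mem_union_right _ this

/-- `x` and `y` are in the same block -/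
def Mono (col : ℕ → ℕ) (l r : CT) (x y : ℕ) : Prop :=
  ∃ ε, ∀ z, x ≤ z → z ≤ y → col z ∈ (sub l r ε).rng

/-- diagonal intersection -/
theorem diag (hT : (CT.node S l r).WF) (W : ℕ → Set ℕ) (hS : ∀ z, (∃ a ∈ W 0, a ≤ z) → col z ∈ S)
    (hW : ∀ i, W (i + 1) ⊆ W i) (Pr : Finset ℕ → Prop)
    (hPr : ∀ (i n : ℕ) (ε : Bool) (m : ℕ), ∃ D : Finset ℕ, (D : Set ℕ) ⊆ W i ∧ (∀ x ∈ D, m < x) ∧
      L col n (sub l r ε) D ∧ Pr D) :
    ∃ Z' ⊆ W 0, LL col S l r Z' ∧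
      (∀ x ∈ Z', ∀ y ∈ Z', x < y → ¬ Mono col l r x y → y ∈ W (x + 1)) ∧
      (∀ x ∈ Z', ∀ y ∈ Z', x < y → Mono col l r x y →
        ∃ D : Finset ℕ, Pr D ∧ ∀ z ∈ Z', x ≤ z → z ≤ y → z ∈ D) ∧
      ∀ x ∈ Z', ∀ y ∈ Z', x < y → Mono col l r x y ∨
        ∀ ε, ∃ z, x ≤ z ∧ z ≤ y ∧ col z ∈ (sub l r ε).rng := by
  classical
  choose F hF1 hF2 hF3 hF4 using hPr
  let s : ℕ → Finset ℕ := fun j => Nat.rec (motive := fun _ => Finset ℕ) (F 0 0 false 0)
    (fun j p => F (p.sup id + 1) (j + 1) (decide ((j + 1) % 2 = 1)) (p.sup id)) j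
  have hs : ∀ j, s (j + 1) = F ((s j).sup id + 1) (j + 1) (decide ((j + 1) % 2 = 1))
    ((s j).sup id) := fun j => rfl
  have hWle : ∀ {i j : ℕ}, i ≤ j → W j ⊆ W i := by
    intro i j h
    induction j, h using Nat.le_induction with
    | base => exact subset_rfl
    | succ k _ ih => exact (hW k).trans ih
  have hL : ∀ j, L col j (sub l r (decide (j % 2 = 1))) (s j) := by
    intro j
    cases j with
    | zero => exact hF3 0 0 false 0
    | succ j => rw [hs]; exact hF3 _ _ _ _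
  have hPs : ∀ j, Pr (s j) := by
    intro j
    cases j with
    | zero => exact hF4 0 0 false 0
    | succ j => rw [hs]; exact hF4 _ _ _ _
  have hW0 : ∀ j, ∀ x ∈ s j, x ∈ W 0 := by
    intro j x hx
    cases j with
    | zero => exact hF1 0 0 false 0 hx
    | succ j => rw [hs] at hx; exact hWle (Nat.zero_le _) (hF1 _ _ _ _ hx)
  have hstep : ∀ j, ∀ x ∈ s (j + 1), (s j).sup id < x := by
    intro j x hx
    rw [hs] at hx
    exact hF2 _ _ _ _ x hx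
  have hsup : ∀ j, (s j).sup id < (s (j + 1)).sup id := by
    intro j
    obtain ⟨x, hx⟩ := L_ne (hL (j + 1))
    exact lt_of_lt_of_le (hstep j x hx) (Finset.le_sup (f := id) hx)
  have hmonos : StrictMono (fun j => (s j).sup id) := strictMono_nat_of_lt_succ hsup
  have hlt : ∀ {i j : ℕ}, i < j → ∀ x ∈ s i, ∀ y ∈ s j, x < y := by
    intro i j hij x hx y hy
    obtain ⟨j', rfl⟩ : ∃ j', j = j' + 1 := ⟨j - 1, by omega⟩
    have h1 : x ≤ (s i).sup id := Finset.le_sup (f := id) hx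
    have h2 : (s i).sup id ≤ (s j').sup id := hmonos.monotone (show i ≤ j' by omega)
    have h3 := hstep j' y hy
    omega
  -- points in different blocks are separated
  have hsep' : ∀ {i j : ℕ}, i < j → ∀ x ∈ s i, ∀ y ∈ s j, ∀ ε, ∃ z, x ≤ z ∧ z ≤ y ∧
      col z ∈ (sub l r ε).rng := by
    intro i j hij x hx y hy ε
    obtain ⟨z, hz, hxz, hzy⟩ : ∃ z ∈ s (i + 1), x ≤ z ∧ z ≤ y := by
      by_cases h : j = i + 1
      · subst h
        exact ⟨y, hy, (hlt hij x hx y hy).le, le_rfl⟩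
      · obtain ⟨z, hz⟩ := L_ne (hL (i + 1))
        exact ⟨z, hz, (hlt (Nat.lt_succ_self i) x hx z hz).le,
          (hlt (show i + 1 < j by omega) z hz y hy).le⟩
    by_cases h : decide (i % 2 = 1) = ε
    · refine ⟨x, le_rfl, hxz.trans hzy, ?_⟩
      rw [← h]
      exact (L_Cv (hL i)).mem hx
    · refine ⟨z, hxz, hzy, ?_⟩
      have h' : decide ((i + 1) % 2 = 1) = ε := by
        cases ε
        · simp only [decide_eq_false_iff_not] at h ⊢
          omega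
        · simp only [decide_eq_true_eq] at h ⊢
          omega
      rw [← h']
      exact (L_Cv (hL (i + 1))).mem hz
  have hsep : ∀ {i j : ℕ}, i < j → ∀ x ∈ s i, ∀ y ∈ s j, ¬ Mono col l r x y := by
    rintro i j hij x hx y hy ⟨ε, hε⟩
    obtain ⟨z, hxz, hzy, hz⟩ := hsep' hij x hx y hy (!ε)
    have h1 := sub_disj hT (hε z hxz hzy) hz
    cases ε <;> exact absurd h1 (by decide)
  refine ⟨{x | ∃ j, x ∈ s j}, ?_, ⟨?_, ?_⟩, ?_, ?_, ?_⟩
  · intro x hx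
    obtain ⟨j, hj⟩ := hx
    exact hW0 j x hj
  · rintro z ⟨a, ha, haz⟩
    obtain ⟨j, hj⟩ := ha
    exact hS z ⟨a, hW0 j a hj, haz⟩
  · intro n ε m
    let j := 2 * (n + m + 1) + (if ε then 1 else 0)
    have hj : decide (j % 2 = 1) = ε := by
      cases ε
      · simp [j]
      · simp [j]
    have hjn : n ≤ j := by simp only [j]; omega
    have hjm : m + 1 ≤ j := by simp only [j]; omega
    refine ⟨s j, fun x hx => ⟨j, hx⟩, ?_, ?_⟩
    · intro x hx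
      obtain ⟨j', hj'⟩ : ∃ j', j = j' + 1 := ⟨j - 1, by omega⟩
      rw [hj'] at hx
      have h1 := hstep j' x hx
      have h2 : j' ≤ (s j').sup id := hmonos.id_le j'
      omega
    · have := hL j
      rw [hj] at this
      exact L_le hjn this
  · intro x hx y hy hxy hm
    obtain ⟨i, hi⟩ := hx
    obtain ⟨j, hj⟩ := hy
    rcases lt_trichotomy i j with h | h | h
    · obtain ⟨j', rfl⟩ : ∃ j', j = j' + 1 := ⟨j - 1, by omega⟩
      have h1 : x ≤ (s i).sup id := Finset.le_sup (f := id) hi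
      have h2 : (s i).sup id ≤ (s j').sup id := hmonos.monotone (show i ≤ j' by omega)
      have h3 : y ∈ W ((s j').sup id + 1) := by
        have hj2 : y ∈ s (j' + 1) := hj
        rw [hs] at hj2
        exact hF1 _ _ _ _ hj2
      exact hWle (by omega) h3
    · exfalso
      subst h
      apply hm
      refine ⟨decide (i % 2 = 1), fun z h1 h2 => ?_⟩
      exact L_Cv (hL i) z ⟨x, hi, h1⟩ ⟨y, hj, h2⟩
    · have := hlt h y hj x hi
      omega
  · intro x hx y hy hxy hm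
    obtain ⟨i, hi⟩ := hx
    obtain ⟨j, hj⟩ := hy
    have hij : i = j := by
      rcases lt_trichotomy i j with h | h | h
      · exact absurd hm (hsep h x hi y hj)
      · exact h
      · have := hlt h y hj x hi
        omega
    subst hij
    refine ⟨s i, hPs i, fun z hz hxz hzy => ?_⟩
    obtain ⟨k, hk⟩ := hz
    rcases lt_trichotomy k i with h | h | h
    · have := hlt h z hk x hi
      omega
    · subst h; exact hk
    · have := hlt h y hj z hk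
      omega
  · intro x hx y hy hxy
    obtain ⟨i, hi⟩ := hx
    obtain ⟨j, hj⟩ := hy
    rcases lt_trichotomy i j with h | h | h
    · right
      exact hsep' h x hi y hj
    · left
      subst h
      refine ⟨decide (i % 2 = 1), fun z h1 h2 => ?_⟩
      exact L_Cv (hL i) z ⟨x, hi, h1⟩ ⟨y, hj, h2⟩
    · have := hlt h y hj x hi
      omega

/-- canonical form of a colouring for pairs in different blocks -/
theorem LL.canon (hT : (CT.node S l r).WF) (hZ : LL col S l r Z) (c : ℕ → ℕ → Bool) :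
    ∃ Z' ⊆ Z, LL col S l r Z' ∧ ∃ Φ : ℕ → ℕ → Bool, ∀ x ∈ Z', ∀ y ∈ Z', x < y →
      ¬ Mono col l r x y → c x y = Φ (col x) (col y) := by
  classical
  have hstep : ∀ (x : ℕ) (W : {W : Set ℕ // LL col S l r W}),
      ∃ W' : {W : Set ℕ // LL col S l r W}, W'.1 ⊆ W.1 ∧
        ∃ φ : ℕ → Bool, ∀ y ∈ W'.1, c x y = φ (col y) := by
    intro x W
    obtain ⟨W', h1, h2, h3⟩ := W.2.points' hT (fun y => c x y)
    exact ⟨⟨W', h2⟩, h1, h3⟩
  choose nx hnx φ hφ using hstep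
  let W : ℕ → {W : Set ℕ // LL col S l r W} := fun j => Nat.rec ⟨Z, hZ⟩ (fun x p => nx x p) j
  have hW0 : (W 0).1 = Z := rfl
  have hW1 : ∀ j, W (j + 1) = nx j (W j) := fun j => rfl
  obtain ⟨Z1, hZ1, hL1, hd, _, _⟩ := diag hT (fun j => (W j).1) (W 0).2.1
    (fun j => by
      show (W (j + 1)).1 ⊆ (W j).1
      rw [hW1]; exact hnx _ _)
    (fun _ => True) (fun i n ε m => by
      obtain ⟨D, h1, h2, h3⟩ := (W i).2.2 n ε m
      exact ⟨D, h1, h2, h3, trivial⟩)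
  obtain ⟨Z2, hZ2, hL2, ψ, hψ⟩ := hL1.points' hT (α := (↥S → Bool))
    (fun x => fun b => φ x (W x) b)
  refine ⟨Z2, hZ2.trans (hZ1.trans hW0.subset), hL2,
    fun a b => if h : b ∈ S then ψ a ⟨b, h⟩ else false, ?_⟩
  intro x hx y hy hxy hm
  have hy' : y ∈ (W (x + 1)).1 := hd x (hZ2 hx) y (hZ2 hy) hxy hm
  rw [hW1] at hy'
  have hcy : col y ∈ S := hL2.1 y ⟨y, hy, le_rfl⟩
  rw [hφ x (W x) y hy']
  simp only [hcy, dif_pos]
  rw [← hψ x hx]

/-- homogeneity inside blocks -/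
theorem LL.inblock (hT : (CT.node S l r).WF) (hZ : LL col S l r Z) (k : ℕ)
    (hk : perf (gg k + 1) (.node S l r)) (c : ℕ → ℕ → Bool) :
    ∃ l' r' : CT, Emb true l' l ∧ Emb true r' r ∧ perf (k + 1) (.node S l' r') ∧
      ∃ Z' ⊆ Z, LL col S l' r' Z' ∧ (∀ x ∈ Z', ∀ y ∈ Z', ∀ y' ∈ Z', x < y → y < y' →
        Mono col l' r' x y' → ∀ S' ∈ l'.rgs ∪ r'.rgs, col x ∉ S' →
          (∀ z, y ≤ z → z ≤ y' → col z ∈ S') → c x y = c x y') ∧
        ∀ x ∈ Z', ∀ y ∈ Z', x < y → Mono col l' r' x y ∨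
          ∀ ε, ∃ z, x ≤ z ∧ z ≤ y ∧ col z ∈ (sub l' r' ε).rng := by
  classical
  have key : ∀ ε : Bool, ∃ T' : CT, Emb true T' (sub l r ε) ∧ perf k T' ∧ ∀ n m,
      ∃ D : Finset ℕ, (D : Set ℕ) ⊆ Z ∧ (∀ x ∈ D, m < x) ∧ L col n T' D ∧
        Star col c T' (D : Set ℕ) := by
    intro ε
    have hfin : Finite {T' : CT // Emb true T' (sub l r ε) ∧ perf k T'} := by
      have h1 : {T' : CT | Emb true T' (sub l r ε) ∧ perf k T'}.Finite :=
        (Emb.finite (sub l r ε)).subset (fun T' h => Emb.here h.1)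
      exact h1.to_subtype
    obtain ⟨⟨T', e1, e2⟩, hT'⟩ := pigeon (col := col) (sub l r ε) Z
      (ι := {T' : CT // Emb true T' (sub l r ε) ∧ perf k T'}) (fun T' => T'.1)
      (fun T' D => Star col c T'.1 (D : Set ℕ)) (by
        intro n m
        obtain ⟨D, hD, hm, hB⟩ := hZ.2 (n + 1) ε m
        obtain ⟨T', e1, e2, D', h1, h2, h3⟩ := Fc hB k c (by
          cases ε
          · exact hk.1
          · exact hk.2)
        exact ⟨D', (Finset.coe_subset.mpr h1).trans hD, fun x hx => hm x (h1 hx), ⟨T', e1, e2⟩,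
          h2, h3⟩)
    exact ⟨T', e1, e2, hT'⟩
  choose T' e1 e2 hT' using key
  have hsub : ∀ ε, sub (T' false) (T' true) ε = T' ε := by
    intro ε; cases ε <;> rfl
  have hE : Emb true (.node S (T' false) (T' true)) (.node S l r) :=
    .node (.here (e1 false)) (.here (e1 true))
  have hwf := hE.wf hT
  obtain ⟨Z', hZ', hL', _, hd, hd2⟩ := diag hwf (fun _ => Z) hZ.1 (fun _ => subset_rfl)
    (fun D => ∃ ε, (∀ z ∈ D, col z ∈ (T' ε).rng) ∧ Star col c (T' ε) (D : Set ℕ))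
    (fun i n ε m => by
      obtain ⟨D, h1, h2, h3, h4⟩ := hT' ε n m
      refine ⟨D, h1, h2, ?_, ε, fun z hz => (L_Cv h3).mem hz, h4⟩
      rw [hsub]; exact h3)
  refine ⟨T' false, T' true, e1 false, e1 true, ⟨e2 false, e2 true⟩, Z', hZ', hL', ?_, hd2⟩
  intro x hx y hy y' hy' hxy hyy' hm S' hS' hxS hyS
  obtain ⟨D, ⟨ε, hD1, hD2⟩, hD3⟩ := hd x hx y' hy' (hxy.trans hyy') hm
  have hxD := hD3 x hx le_rfl (hxy.trans hyy').le
  have hyD := hD3 y hy hxy.le hyy'.le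
  have hy'D := hD3 y' hy' (hxy.trans hyy').le le_rfl
  have hS'' : S' ∈ (T' ε).rgs := by
    have hyS' := hyS y le_rfl hyy'.le
    have hyr := hD1 y hyD
    rcases hS' with h | h
    · have h1 := hwf.2.2.2.1.rgs_sub S' h hyS'
      have : ε = false := sub_disj hwf (ε := ε) (ε' := false) (by rw [hsub]; exact hyr) h1
      rw [this]; exact h
    · have h1 := hwf.2.2.2.2.rgs_sub S' h hyS'
      have : ε = true := sub_disj hwf (ε := ε) (ε' := true) (by rw [hsub]; exact hyr) h1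
      rw [this]; exact h
  exact hD2 S' hS'' x hxD y hyD y' hy'D hxy hyy' hxS hyS

/-- the partition theorem for colourings of pairs -/
theorem LL.crt (hT : (CT.node S l r).WF) (hZ : LL col S l r Z) (k : ℕ)
    (hk : perf (gg (k + 1)) (.node S l r)) (c : ℕ → ℕ → Bool) :
    ∃ l' r' : CT, Emb true (.node S l' r') (.node S l r) ∧ perf (k + 1) (.node S l' r') ∧
      ∃ Z' ⊆ Z, LL col S l' r' Z' ∧ Star col c (.node S l' r') Z' := by
  obtain ⟨Z1, hZ1, hL1, Φ, hΦ⟩ := hZ.canon hT c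
  obtain ⟨T1, hT1, pT1, gT1⟩ := exists_good Φ (gg k + 1) (.node S l r)
    (perf_mono (by simp [gg]) hk)
  -- `T1` is a node
  obtain ⟨l1, r1, rfl, hl1, hr1⟩ : ∃ l1 r1, T1 = .node S l1 r1 ∧ Emb false l1 l ∧
      Emb false r1 r := by
    cases hT1 with
    | leaf h => exact absurd pT1 (by simp [perf])
    | node h1 h2 => exact ⟨_, _, rfl, h1, h2⟩
  have hwf1 := hT1.wf hT
  obtain ⟨Z2, hZ2, hL2, hlv⟩ := hL1.thin hl1 hr1
  obtain ⟨l2, r2, hl2, hr2, pT2, Z3, hZ3, hL3, hin, hsp⟩ := hL2.inblock hwf1 k pT1 c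
  have hE2 : Emb true (.node S l2 r2) (.node S l1 r1) := .node (.here hl2) (.here hr2)
  have hwf2 := hE2.wf hwf1
  refine ⟨l2, r2, hT1.trans_tt hE2, pT2, Z3, hZ3.trans (hZ2.trans hZ1), hL3, ?_⟩
  intro S' hS' x hx y hy y' hy' hxy hyy' hxS hyS
  rcases hS' with rfl | hS'
  · exact absurd (hL3.1 x ⟨x, hx, le_rfl⟩) hxS
  · by_cases hm : Mono col l2 r2 x y'
    · exact hin x hx y hy y' hy' hxy hyy' hm S' hS' hxS hyS
    · have hsubrng : ∀ ε, (sub l2 r2 ε).rng ⊆ (sub l r ε).rng := by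
        intro ε
        cases ε
        · exact (hl1.trans_ff hl2.weak).rng_sub hT.2.2.2.1
        · exact (hr1.trans_ff hr2.weak).rng_sub hT.2.2.2.2
      -- the part containing `S'`
      obtain ⟨ε, hε⟩ : ∃ ε, S' ⊆ (sub l2 r2 ε).rng := by
        rcases hS' with h | h
        · exact ⟨false, hwf2.2.2.2.1.rgs_sub S' h⟩
        · exact ⟨true, hwf2.2.2.2.2.rgs_sub S' h⟩
      have hm1 : ¬ Mono col l r x y' := by
        rintro ⟨ε', hε'⟩
        rcases hsp x hx y' hy' (hxy.trans hyy') with h | h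
        · exact hm h
        · obtain ⟨z, hxz, hzy, hz⟩ := h (!ε')
          have h1 := sub_disj hT (hε' z hxz hzy) (hsubrng _ hz)
          cases ε' <;> exact absurd h1 (by decide)
      have hm2 : ¬ Mono col l r x y := by
        rintro ⟨ε', hε'⟩
        apply hm1
        refine ⟨ε, fun z hxz hzy => ?_⟩
        have h1 : ε' = ε := sub_disj hT (hε' y hxy.le le_rfl)
          (hsubrng ε (hε (hyS y le_rfl hyy'.le)))
        rcases le_or_gt z y with h | h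
        · rw [← h1]; exact hε' z hxz h
        · exact hsubrng ε (hε (hyS z h.le hzy))
      have key : ∀ z ∈ Z3, x < z → ¬ Mono col l r x z → c x z = Φ (col x) (col z) := by
        intro z hz hxz hmz
        exact hΦ x (hZ2 (hZ3 hx)) z (hZ2 (hZ3 hz)) hxz hmz
      have hlv' : ∀ z ∈ Z3, col z ∈ (CT.node S l1 r1).lv := fun z hz => hlv z (hZ3 hz)
      rw [key y hy hxy hm2, key y' hy' (hxy.trans hyy') hm1]
      exact Good.rgs hwf1 gT1 S' (hE2.rgs_sub (Or.inr hS')) _ (hlv' x hx) _ (hlv' y hy) _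
        (hlv' y' hy') hxS (hyS y le_rfl hyy'.le) (hyS y' hyy'.le le_rfl)

end Pool.Agent.KS6_49.CW.CR
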