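import Pool.Agent.KS6_49.CW.Sep
import Pool.Agent.KS6_49.CW.Fin
import Pool.Agent.KS6_49.CW.Elem

/-!
The main theorem.
-/

namespace Pool.Agent.KS6_49.CW

open RM CR

instance : Nonempty Fm := ⟨.eq .zero .zero⟩

/-- an enumeration of the formulas -/
noncomputable def enumF : ℕ → Fm := (exists_surjective_nat Fm).choose

theorem enumF_surj : Function.Surjective enumF := (exists_surjective_nat Fm).choose_spec

open Classical in
/-- the functions for given sets -/
noncomputable def gOf (A : ℕ → Set ℕ) (k w : ℕ) : ℕ :=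
  if k % 2 = 0 then sk A (enumF (k / 2)) w else if w ∈ A (k / 2) then 1 else 0

theorem good_gOf (A : ℕ → Set ℕ) : @Good1 ⟨gOf A⟩ A := by
  classical
  let _ : Par := ⟨gOf A⟩
  refine ⟨fun φ => ?_, fun k => ?_⟩
  · obtain ⟨k, hk⟩ := enumF_surj φ
    refine ⟨2 * k, fun w => ?_⟩
    show gOf A (2 * k) w = _
    unfold gOf
    rw [if_pos (by omega), show 2 * k / 2 = k by omega, hk]
  · refine ⟨2 * k + 1, fun w => ?_⟩
    show gOf A (2 * k + 1) w ≠ 0 ↔ _
    unfold gOf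
    rw [if_neg (by omega), show (2 * k + 1) / 2 = k by omega]
    by_cases h : w ∈ A k
    · simp [h]
    · simp [h]

/-- the main theorem -/
theorem main (A : ℕ → Set ℕ) : ∃ N : L2Structure.{0}, IsModelRCA0 N ∧ WKL N ∧ SigmaSep N ∧
    CRT22 N ∧ ¬ COH N ∧ ¬ FinCOH N ∧
    ∃ (B : ℕ → Set N.M) (j : ℕ → N.M), (∀ k, B k ∈ N.Sets) ∧
      ∀ (φ : Fm) (v : ℕ → ℕ), φ.Holds stdN A v ↔ φ.Holds N B (fun i => j (v i)) := by
  let _ : Par := ⟨gOf A⟩
  exact ⟨PP, isModel, wkl, sigmaSep, crt, not_coh, not_fincoh, BB A, jj,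
    BB_mem (good_gOf A), elem (good_gOf A)⟩

end Pool.Agent.KS6_49.CW
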