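import Pool.Agent.KS6_49.CW.Exist

/-!
Standard data, step functions, codes of internal functions.
-/

namespace Pool.Agent.KS6_49.CW.CR

open Filter CT

deriving instance Countable for CT

noncomputable instance : Encodable CT := Encodable.ofCountable CT

/-- codes of internal functions; `var` is the variable `0`, `lift` is weakening, `clo` closes a
code, `setc` forms finite sets and `bmin` is bounded search -/
inductive Cd : Type
  | idx : Cd
  | var : Cd
  | lift : Cd → Cd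
  | clo : Cd → Cd
  | nat : ℕ → Cd
  | op : ℕ → Cd → Cd
  | pair : Cd → Cd → Cd
  | setc : Cd → Cd → Cd
  | bmin : Cd → Cd → Cd

deriving instance Countable for Cd

def consN (a : ℕ) (v : ℕ → ℕ) : ℕ → ℕ
  | 0 => a
  | n + 1 => v n

/-- decoding of finite sets -/
noncomputable def dec (K : ℕ) : Finset ℕ := (Encodable.decode (α := Finset ℕ) K).getD ∅

@[simp] theorem dec_encode (F : Finset ℕ) : dec (Encodable.encode F) = F := by simp [dec]

/-- pairing of the second order structure -/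
def prn (a b : ℕ) : ℕ := (a + b) * (a + b) + a

/-- iterated halves -/
def Anc (z x : ℕ) : Prop := ∃ j, x = z / 2 ^ j

open Classical in
/-- `z` and all its nonzero iterated halves are in the set `K` -/
def AllIn (K z : ℕ) : Prop := ∀ x, x ≠ 0 → Anc z x → x ∈ dec K

open Classical in
/-- the largest `z ≤ b` whose nonzero iterated halves are in `K` -/
noncomputable def topz (b K : ℕ) : ℕ := Nat.findGreatest (fun z => AllIn K z) b

open Classical in
/-- the set of nonzero iterated halves -/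
noncomputable def pathz (z : ℕ) : ℕ :=
  Encodable.encode ((Finset.range (z + 1)).filter (fun x => x ≠ 0 ∧ Anc z x))

open Classical in
/-- the largest nonzero iterated half of `z` which is not in `K` -/
noncomputable def badz (z K : ℕ) : ℕ :=
  Nat.findGreatest (fun x => x ≠ 0 ∧ Anc z x ∧ x ∉ dec K) z

variable [Par]

/-! ### standard data -/

/-- heights -/
def GG : ℕ → ℕ
  | 0 => 0
  | j + 1 => gg (GG j) + 2 * GG j + 2

/-- the number of colours -/
def NC (t : ℕ) : ℕ := 2 ^ GG t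

/-- a bound for the codes of sets of colours -/
def MB (t : ℕ) : ℕ := (Finset.range (NC t)).powerset.sup Encodable.encode + NC t + t

noncomputable def cl (t : ℕ) : ℕ → ℕ := (exists_large (pt (GG t) 0) (pt_WF _ _) t (MB t)).choose

noncomputable def D0 (t : ℕ) : Finset ℕ :=
  (exists_large (pt (GG t) 0) (pt_WF _ _) t (MB t)).choose_spec.choose

theorem D0_spec (t : ℕ) : (∀ x ∈ D0 t, MB t < x) ∧ L (cl t) t (pt (GG t) 0) (D0 t) :=
  (exists_large (pt (GG t) 0) (pt_WF _ _) t (MB t)).choose_spec.choose_spec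

noncomputable def TT (t : ℕ) : ℕ := (D0 t).sup id

theorem prn_inj {a b c d : ℕ} (h : prn a b = prn c d) : a = c ∧ b = d := by
  unfold prn at h
  have h1 : a + b = c + d := by
    rcases lt_trichotomy (a + b) (c + d) with hlt | heq | hgt
    · exfalso; nlinarith
    · exact heq
    · exfalso; nlinarith
  rw [h1] at h
  constructor <;> omega

open Classical in
/-- the colouring of pairs coded by a finite set of pairs -/
noncomputable def cOf (d x y : ℕ) : Bool := decide (prn x y ∈ dec d)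

/-- states: a finite set, a tree of colours, a lower bound -/
abbrev St := Finset ℕ × CT × ℕ

/-- the possible next states -/
def Nx (t n : ℕ) (s : St) (Q : Finset ℕ → CT → Prop) (p : Finset ℕ × CT) : Prop :=
  p.1 ⊆ s.1 ∧ L (cl t) n p.2 p.1 ∧ Emb false p.2 s.2.1 ∧ perf (GG n) p.2 ∧ Q p.1 p.2

open Classical in
/-- the general step -/
noncomputable def stepQ (t n : ℕ) (s : St) (Q : Finset ℕ → CT → Prop) : St :=
  if h : ∃ p, Nx t n s Q p then (h.choose.1, h.choose.2, s.2.2) else s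

/-- the colour `d` is removed -/
noncomputable def stepColor (t n : ℕ) (s : St) (d : ℕ) : St :=
  stepQ t n s (fun _ T => d ∉ T.rng)

/-- the colouring of pairs `d` is homogenised -/
noncomputable def stepPair (t n : ℕ) (s : St) (d : ℕ) : St :=
  stepQ t n s (fun D T => Star (cl t) (cOf d) T (D : Set ℕ))

/-- no point of the small set `d` in the hull -/
noncomputable def stepGap (t n : ℕ) (s : St) (d : ℕ) : St :=
  stepQ t n s (fun D _ => ∀ h ∈ dec d, (∀ y ∈ D, h < y) ∨ (∀ y ∈ D, y < h))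

/-- the set `d` is avoided or split -/
noncomputable def stepSplit (t n : ℕ) (s : St) (d : ℕ) : St :=
  stepQ t n s (fun D _ => (∀ x ∈ dec d, ¬ ((∃ a ∈ D, a ≤ x) ∧ (∃ b ∈ D, x ≤ b))) ∨
    ∃ B ⊆ Finset.range (NC t), Btw (cl t) (dec d : Set ℕ) B (D : Set ℕ))

open Classical in
noncomputable def stepAdv (t n : ℕ) (s : St) (_ : ℕ) : St :=
  if h : ∃ p : ℕ × Finset ℕ, p.1 ∈ s.1 ∧ p.2 ⊆ s.1 ∧ L (cl t) n s.2.1 p.2 ∧
    ∀ y ∈ p.2, FF p.1 ≤ y
  then (h.choose.2, s.2.1, FF h.choose.1) else s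

/-- the invariant -/
def Inv (t n : ℕ) (s : St) : Prop :=
  L (cl t) n s.2.1 s.1 ∧ perf (GG n) s.2.1 ∧ s.2.1.WF ∧ s.2.1.rng ⊆ Finset.range (NC t) ∧
    (∀ y ∈ s.1, s.2.2 ≤ y) ∧ 1 ≤ s.2.2

theorem GG_mono (n : ℕ) : GG n ≤ GG (n + 1) := by
  simp only [GG]; omega

theorem stepQ_spec {t n : ℕ} {s : St} (h : Inv t (n + 1) s) (Q : Finset ℕ → CT → Prop) :
    Inv t n (stepQ t n s Q) ∧ (stepQ t n s Q).1 ⊆ s.1 ∧ (stepQ t n s Q).2.2 = s.2.2 ∧
      Emb false (stepQ t n s Q).2.1 s.2.1 ∧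
      ((∃ p, Nx t n s Q p) → Q (stepQ t n s Q).1 (stepQ t n s Q).2.1) := by
  classical
  obtain ⟨h1, h2, h3, h4, h5, h6⟩ := h
  by_cases hex : ∃ p, Nx t n s Q p
  · have e : stepQ t n s Q = (hex.choose.1, hex.choose.2, s.2.2) := by
      unfold stepQ
      exact dif_pos hex
    obtain ⟨e1, e2, e3, e4, e5⟩ := hex.choose_spec
    rw [e]
    exact ⟨⟨e2, e4, e3.wf h3, (e3.rng_sub h3).trans h4, fun y hy => h5 y (e1 hy), h6⟩, e1, rfl,
      e3, fun _ => e5⟩
  · have e : stepQ t n s Q = s := by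
      unfold stepQ
      exact dif_neg hex
    rw [e]
    exact ⟨⟨L_anti h1, perf_mono (GG_mono n) h2, h3, h4, h5, h6⟩, subset_rfl, rfl,
      .here (.refl _), fun hc => absurd hc hex⟩

/-- the tree of a state with positive parameter is a node -/
theorem Inv.node {t n : ℕ} {s : St} (h : Inv t (n + 1) s) : ∃ S l r, s.2.1 = .node S l r := by
  have h2 := h.2.1
  cases hT : s.2.1 with
  | leaf S a => rw [hT] at h2; exact absurd h2 (by simp [perf, GG])
  | node S l r => exact ⟨S, l, r, rfl⟩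

theorem stepColor_spec {t n : ℕ} {s : St} (h : Inv t (n + 1) s) (d : ℕ) :
    Inv t n (stepColor t n s d) ∧ (stepColor t n s d).1 ⊆ s.1 ∧ (stepColor t n s d).2.2 = s.2.2 ∧
      Emb false (stepColor t n s d).2.1 s.2.1 ∧ d ∉ (stepColor t n s d).2.1.rng := by
  obtain ⟨e1, e2, e3, e4, e5⟩ := stepQ_spec h (fun _ T => d ∉ T.rng)
  refine ⟨e1, e2, e3, e4, e5 ?_⟩
  obtain ⟨S, l, r, hT⟩ := h.node
  obtain ⟨h1, h2, h3, _⟩ := h
  rw [hT] at h1 h2 h3
  have hp : perf (GG n + 1) (.node S l r) := perf_mono (by simp only [GG]; omega) h2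
  obtain ⟨ε, hε⟩ : ∃ ε, d ∉ (sub l r ε).rng := by
    by_cases hd : d ∈ (sub l r true).rng
    · refine ⟨false, fun hc => ?_⟩
      exact absurd (sub_disj h3 hc hd) (by decide)
    · exact ⟨true, hd⟩
  obtain ⟨D, hD, hL⟩ := h1.2.1 ε
  refine ⟨(D, sub l r ε), hD, hL, ?_, ?_, hε⟩
  · rw [hT]
    cases ε
    · exact .left (.here (.refl _))
    · exact .right (.here (.refl _))
  · cases ε
    · exact hp.1
    · exact hp.2

theorem stepPair_spec {t n : ℕ} {s : St} (h : Inv t (n + 1) s) (d : ℕ) :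
    Inv t n (stepPair t n s d) ∧ (stepPair t n s d).1 ⊆ s.1 ∧ (stepPair t n s d).2.2 = s.2.2 ∧
      Emb false (stepPair t n s d).2.1 s.2.1 ∧
      Star (cl t) (cOf d) (stepPair t n s d).2.1 ((stepPair t n s d).1 : Set ℕ) := by
  obtain ⟨e1, e2, e3, e4, e5⟩ := stepQ_spec h (fun D T => Star (cl t) (cOf d) T (D : Set ℕ))
  refine ⟨e1, e2, e3, e4, e5 ?_⟩
  obtain ⟨T', f1, f2, D, hD, hL, hS⟩ := Fc h.1 (GG n) (cOf d)
    (perf_mono (by simp only [GG]; omega) h.2.1)
  exact ⟨(D, T'), hD, hL, .here f1, f2, hS⟩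

theorem stepGap_spec {t n : ℕ} {s : St} (h : Inv t (n + 1) s) (d : ℕ) :
    Inv t n (stepGap t n s d) ∧ (stepGap t n s d).1 ⊆ s.1 ∧ (stepGap t n s d).2.2 = s.2.2 ∧
      Emb false (stepGap t n s d).2.1 s.2.1 ∧
      ((dec d).card ≤ s.2.2 → ∀ h ∈ dec d, (∀ y ∈ (stepGap t n s d).1, h < y) ∨
        (∀ y ∈ (stepGap t n s d).1, y < h)) := by
  obtain ⟨e1, e2, e3, e4, e5⟩ := stepQ_spec h
    (fun D _ => ∀ h ∈ dec d, (∀ y ∈ D, h < y) ∨ (∀ y ∈ D, y < h))
  refine ⟨e1, e2, e3, e4, fun hc => e5 ?_⟩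
  obtain ⟨S, l, r, hT⟩ := h.node
  obtain ⟨h1, h2, h3, _, h5, _⟩ := h
  rw [hT] at h1
  obtain ⟨D, hD, hL, hg⟩ := h1.2.2.1 (dec d) (fun y hy => hc.trans (h5 y hy))
  exact ⟨(D, s.2.1), hD, by rw [hT]; exact hL, .here (.refl _), perf_mono (GG_mono n) h2, hg⟩

theorem stepSplit_spec {t n : ℕ} {s : St} (h : Inv t (n + 1) s) (d : ℕ) :
    Inv t n (stepSplit t n s d) ∧ (stepSplit t n s d).1 ⊆ s.1 ∧
      (stepSplit t n s d).2.2 = s.2.2 ∧ Emb false (stepSplit t n s d).2.1 s.2.1 ∧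
      ((∀ x ∈ dec d, ¬ ((∃ a ∈ (stepSplit t n s d).1, a ≤ x) ∧
        (∃ b ∈ (stepSplit t n s d).1, x ≤ b))) ∨
        ∃ B ⊆ Finset.range (NC t), Btw (cl t) (dec d : Set ℕ) B
          ((stepSplit t n s d).1 : Set ℕ)) := by
  obtain ⟨e1, e2, e3, e4, e5⟩ := stepQ_spec h
    (fun D _ => (∀ x ∈ dec d, ¬ ((∃ a ∈ D, a ≤ x) ∧ (∃ b ∈ D, x ≤ b))) ∨
      ∃ B ⊆ Finset.range (NC t), Btw (cl t) (dec d : Set ℕ) B (D : Set ℕ))
  refine ⟨e1, e2, e3, e4, e5 ?_⟩
  obtain ⟨h1, h2, h3, h4, _, _⟩ := h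
  rcases F7 h1 (GG n) (GG n) (dec d : Set ℕ) (perf_mono (by simp only [GG]; omega) h2) with
    ⟨v, f1, f2, D, hD, hL, hX⟩ | ⟨B, T', f1, f2, f3, D, hD, hL, hB, _, _⟩
  · exact ⟨(D, v), hD, hL, f1, f2, Or.inl hX⟩
  · exact ⟨(D, T'), hD, hL, .here f1, f2, Or.inr ⟨B, f3.trans h4, hB⟩⟩

theorem FF_ge (x : ℕ) : x ^ 2 + 2 * x + 2 ≤ FF x := by
  unfold FF
  exact Nat.le_add_right _ _

theorem FF_mono {a b : ℕ} (h : a ≤ b) : FF a ≤ FF b := by
  unfold FF
  have h1 : Finset.range (a + 1) ⊆ Finset.range (b + 1) :=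
    Finset.range_subset_range.mpr (by omega)
  have h2 : ∑ k ∈ Finset.range (a + 1), ∑ w ∈ Finset.range (a + 1), Par.g k w ≤
      ∑ k ∈ Finset.range (b + 1), ∑ w ∈ Finset.range (b + 1), Par.g k w :=
    (Finset.sum_le_sum fun k _ => Finset.sum_le_sum_of_subset h1).trans
      (Finset.sum_le_sum_of_subset h1)
  have h3 : a ^ 2 ≤ b ^ 2 := Nat.pow_le_pow_left h 2
  omega

theorem lt_FF (a : ℕ) : a < FF a := by
  have := FF_ge a
  nlinarith [Nat.zero_le (a ^ 2)]

theorem g_lt {u k w : ℕ} (hk : k < u) (hw : w < u) : Par.g k w < FF u := by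
  unfold FF
  have h1 : Par.g k w ≤ ∑ w ∈ Finset.range (u + 1), Par.g k w :=
    Finset.single_le_sum (f := fun w => Par.g k w) (fun _ _ => Nat.zero_le _)
      (Finset.mem_range.mpr (by omega))
  have h2 : ∑ w ∈ Finset.range (u + 1), Par.g k w ≤
      ∑ k ∈ Finset.range (u + 1), ∑ w ∈ Finset.range (u + 1), Par.g k w :=
    Finset.single_le_sum (f := fun k => ∑ w ∈ Finset.range (u + 1), Par.g k w)
      (fun _ _ => Nat.zero_le _) (Finset.mem_range.mpr (by omega))
  omega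

theorem stepAdv_spec {t n : ℕ} {s : St} (h : Inv t (n + 1) s) (d : ℕ) :
    Inv t n (stepAdv t n s d) ∧ (stepAdv t n s d).1 ⊆ s.1 ∧
      Emb false (stepAdv t n s d).2.1 s.2.1 ∧
      FF s.2.2 ≤ (stepAdv t n s d).2.2 ∧ ∃ x ∈ s.1, x < (stepAdv t n s d).2.2 := by
  classical
  obtain ⟨S, l, r, hT⟩ := h.node
  obtain ⟨h1, h2, h3, h4, h5, h6⟩ := h
  have hex : ∃ p : ℕ × Finset ℕ, p.1 ∈ s.1 ∧ p.2 ⊆ s.1 ∧ L (cl t) n s.2.1 p.2 ∧
      ∀ y ∈ p.2, FF p.1 ≤ y := by
    rw [hT] at h1 ⊢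
    obtain ⟨x, hx, Y', h5, h6, h7⟩ := h1.2.2.2.1
    exact ⟨(x, Y'), hx, h5, h6, h7⟩
  have e : stepAdv t n s d = (hex.choose.2, s.2.1, FF hex.choose.1) := by
    unfold stepAdv
    exact dif_pos hex
  obtain ⟨hx, hD, hL, hf⟩ := hex.choose_spec
  rw [e]
  refine ⟨⟨hL, perf_mono (GG_mono n) h2, h3, h4, hf, ?_⟩, hD, .here (.refl _),
    FF_mono (h5 _ hx), _, hx, lt_FF _⟩
  exact (Nat.zero_le _).trans_lt (lt_FF _)

/-! ### operations on numbers -/

/-- coding of states -/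
noncomputable def encS (s : St) : ℕ :=
  Nat.pair (Encodable.encode s.1) (Nat.pair (Encodable.encode s.2.1) s.2.2)

/-- decoding of trees -/
noncomputable def decT (w : ℕ) : CT := (Encodable.decode (α := CT) w).getD (.leaf ∅ 0)

@[simp] theorem decT_encode (T : CT) : decT (Encodable.encode T) = T := by simp [decT]

/-- decoding of states -/
noncomputable def decS (w : ℕ) : St :=
  (dec w.unpair.1, decT w.unpair.2.unpair.1, w.unpair.2.unpair.2)

@[simp] theorem decS_encS (s : St) : decS (encS s) = s := by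
  simp [decS, encS]

/-- the combined step -/
noncomputable def stepK (k t n : ℕ) (s : St) (d : ℕ) : St :=
  match k with
  | 0 => stepColor t n s d
  | 1 => stepPair t n s d
  | 2 => stepGap t n s d
  | 3 => stepSplit t n s d
  | _ => stepAdv t n s d

open Classical in
/-- a splitting set of colours -/
noncomputable def witB (t D K : ℕ) : ℕ :=
  if h : ∃ B ⊆ Finset.range (NC t), Btw (cl t) (dec K : Set ℕ) B (dec D : Set ℕ)
  then Encodable.encode h.choose else 0

theorem witB_le (t D K : ℕ) : witB t D K ≤ MB t := by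
  classical
  unfold witB
  split
  · next h =>
    have h1 : h.choose ∈ (Finset.range (NC t)).powerset :=
      Finset.mem_powerset.mpr h.choose_spec.1
    have h2 := Finset.le_sup (f := Encodable.encode) h1
    unfold MB
    omega
  · exact Nat.zero_le _

theorem witB_spec {t D K : ℕ}
    (h : ∃ B ⊆ Finset.range (NC t), Btw (cl t) (dec K : Set ℕ) B (dec D : Set ℕ)) :
    Btw (cl t) (dec K : Set ℕ) (dec (witB t D K)) (dec D : Set ℕ) := by
  classical
  have e : witB t D K = Encodable.encode h.choose := by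
    unfold witB
    exact dif_pos h
  rw [e, dec_encode]
  exact h.choose_spec.2

open Classical in
/-- basic operations -/
noncomputable def opf : ℕ → ℕ → ℕ
  | 0, w => w.unpair.1 + w.unpair.2
  | 1, w => w.unpair.1 * w.unpair.2
  | 2, w => if w.unpair.1 = w.unpair.2 then 1 else 0
  | 3, w => if w.unpair.1 < w.unpair.2 then 1 else 0
  | 4, w => if w.unpair.1 ∈ dec w.unpair.2 then 1 else 0
  | 5, w => if w = 0 then 1 else 0
  | 6, w => if w.unpair.1 ≠ 0 ∧ w.unpair.2 ≠ 0 then 1 else 0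
  | 7, w => w.unpair.1
  | 8, w => w.unpair.2
  | 9, t => encS (D0 t, pt (GG t) 0, MB t + 1)
  | 10, w => w.unpair.1 - w.unpair.2
  | 11, t => TT t + 1
  | 12, w => cl w.unpair.1 w.unpair.2
  | 13, t => MB t
  | 14, w => witB w.unpair.1 w.unpair.2.unpair.1 w.unpair.2.unpair.2
  | 15, w => Par.g w.unpair.1 w.unpair.2
  | 16, w => pathz (topz w.unpair.1 w.unpair.2)
  | 17, w => badz w.unpair.1 w.unpair.2
  | (k + 18), w => encS (stepK k w.unpair.1 w.unpair.2.unpair.1
      (decS w.unpair.2.unpair.2.unpair.1) w.unpair.2.unpair.2.unpair.2)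

/-! ### codes -/

open Classical in
/-- evaluation of a code at index `t` under an assignment -/
noncomputable def ev : Cd → ℕ → (ℕ → ℕ) → ℕ
  | .idx, t, _ => t
  | .var, _, v => v 0
  | .lift c, t, v => ev c t (fun i => v (i + 1))
  | .clo c, t, _ => ev c t (fun _ => 0)
  | .nat n, _, _ => n
  | .op i c, t, v => opf i (ev c t v)
  | .pair c d, t, v => Nat.pair (ev c t v) (ev d t v)
  | .setc b c, t, v => Encodable.encode
      ((Finset.range (ev b t v)).filter (fun x => ev c t (consN x v) ≠ 0))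
  | .bmin b c, t, v => if h : ∃ x < ev b t v, ev c t (consN x v) ≠ 0 then Nat.find h else ev b t v

/-- value of a closed code -/
noncomputable def E (c : Cd) (t : ℕ) : ℕ := ev c t (fun _ => 0)

end Pool.Agent.KS6_49.CW.CR
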