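import Pool.Agent.KS6_49.CW.Mod3

/-!
The structure is a model of `RCA₀`.
-/

namespace Pool.Agent.KS6_49.CW.CR

open Filter CT Pool.Agent.KS6_49.CW.RM

variable [Par]

/-- code of the lower bound of stage `k` -/
noncomputable def uC (k : ℕ) : Cd := .op 8 (.op 8 (SC k))
/-- code of the set of stage `k` -/
noncomputable def yC (k : ℕ) : Cd := .op 7 (SC k)
/-- code of the top -/
def topC : Cd := .op 11 .idx

theorem E_uC (k t : ℕ) : E (uC k) t = (st k t).2.2 := by
  simp [uC, E, ev, opf, st, decS]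

theorem E_yC (k t : ℕ) : dec (E (yC k) t) = (st k t).1 := by
  simp [yC, E, ev, opf, st, decS]

theorem ev_topC (t : ℕ) (w : ℕ → ℕ) : ev topC t w = TT t + 1 := by
  simp [topC, ev, opf]

theorem bdd_uC (k : ℕ) : Bdd (uC k) := by
  obtain ⟨j, hj, hadv⟩ := adv k
  refine ⟨j + 1, (Ev.ge (j + 1)).mono fun t ht => ?_⟩
  rw [E_uC]
  have h1 := (hadv t ht).1
  have h2 := (st_le hj (show j ≤ t by omega)).2
  have h3 := lt_FF (st j t).2.2
  omega

/-- elements of the model are below the top -/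
theorem rp_le_top {x : PP.M} {k : ℕ} (h : Ev fun t => rp x t < (st k t).2.2) :
    Ev fun t => rp x t < TT t := by
  refine h.mono2 (Ev.ge k) fun t h1 h2 => ?_
  obtain ⟨y, hy⟩ := st_ne h2
  have h3 := st_lb h2 y hy
  have h4 := st_top h2 hy
  omega

theorem rp_top (x : PP.M) : Ev fun t => rp x t < TT t := by
  obtain ⟨k, hk⟩ := rc_bdd x
  exact rp_le_top hk

/-! ### formulas with two distinguished variables -/

def rho2 (a b : Cd) (r : ℕ → Cd) : ℕ → Cd
  | 0 => a
  | 1 => b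
  | n + 2 => r n

/-- truth at `t` with two distinguished variables -/
def T2 (θ : Delta0 PP) (v : ℕ → PP.M) (t y x : ℕ) : Prop :=
  tru θ t (consN y (consN x (fun i => rp (v i) t)))

noncomputable def c2 (θ : Delta0 PP) (v : ℕ → PP.M) (a b : Cd) : Cd :=
  trF θ (rho2 a b (fun i => .clo (rc (v i))))

@[simp] theorem tr_c2 (θ : Delta0 PP) (v : ℕ → PP.M) (a b : Cd) (t : ℕ) (w : ℕ → ℕ) :
    ev (c2 θ v a b) t w ≠ 0 ↔ T2 θ v t (ev a t w) (ev b t w) := by
  unfold c2 T2
  rw [tr_trF]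
  have : (fun i => ev (rho2 a b (fun i => .clo (rc (v i))) i) t w) =
      consN (ev a t w) (consN (ev b t w) (fun i => rp (v i) t)) := by
    funext i
    match i with
    | 0 => rfl
    | 1 => rfl
    | n + 2 => rfl
  rw [this]

theorem los2 (θ : Delta0 PP) (v : ℕ → PP.M) (k n : PP.M) :
    θ.Holds (RM.cons k (RM.cons n v)) ↔ Ev fun t => T2 θ v t (rp k t) (rp n t) := by
  rw [los]
  refine Ev.congr (Ev.of fun t => ?_)
  rw [cons_rv, cons_rv]
  exact Iff.rfl

/-- the set of least witnesses -/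
noncomputable def Hc (θ : Delta0 PP) (v : ℕ → PP.M) (n0 : PP.M) : Cd :=
  .setc topC (cEx (.clo (cAdd (rc n0) (.nat 1)))
    (cAnd (c2 θ v (.lift .var) .var) (cAll (.lift .var) (cNot (c2 θ v .var (.lift .var))))))

theorem mem_Hc (θ : Delta0 PP) (v : ℕ → PP.M) (n0 : PP.M) (t z : ℕ) :
    z ∈ dec (E (Hc θ v n0) t) ↔ z < TT t + 1 ∧ ∃ x < rp n0 t + 1, T2 θ v t z x ∧
      ∀ y < z, ¬ T2 θ v t y x := by
  unfold E Hc
  rw [mem_setc, ev_topC, tr_cEx]
  simp only [tr_cAnd, tr_cAll, tr_cNot, tr_c2, ev_lift, ev_var, consN_zero, consN_succ, ev_clo]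
  have e : E (cAdd (rc n0) (.nat 1)) t = rp n0 t + 1 := by
    show ev _ _ _ = _
    rw [ev_cAdd]; rfl
  rw [e]

theorem card_Hc (θ : Delta0 PP) (v : ℕ → PP.M) (n0 : PP.M) (t : ℕ) :
    (dec (E (Hc θ v n0) t)).card ≤ rp n0 t + 1 := by
  classical
  have hsub : dec (E (Hc θ v n0) t) ⊆ (Finset.range (rp n0 t + 1)).image
      (fun x => if h : ∃ y, T2 θ v t y x then Nat.find h else 0) := by
    intro z hz
    rw [mem_Hc] at hz
    obtain ⟨_, x, hx, h1, h2⟩ := hz
    refine Finset.mem_image.mpr ⟨x, Finset.mem_range.mpr hx, ?_⟩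
    have h : ∃ y, T2 θ v t y x := ⟨z, h1⟩
    rw [dif_pos h]
    refine le_antisymm (Nat.find_min' h h1) ?_
    by_contra hcon
    push Not at hcon
    exact h2 _ hcon (Nat.find_spec h)
  exact (Finset.card_le_card hsub).trans (Finset.card_image_le.trans (by simp))

/-- a uniform bound for the witnesses -/
theorem witness_bound (θ : Delta0 PP) (v : ℕ → PP.M) (n0 : PP.M) : ∃ j : ℕ, ∀ x : PP.M,
    (PP.lt x n0 ∨ x = n0) → ((∃ k, θ.Holds (RM.cons k (RM.cons x v))) ↔
      Ev fun t => ∃ y < (st j t).2.2, T2 θ v t y (rp x t)) := by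
  obtain ⟨m, hm⟩ := rc_bdd n0
  obtain ⟨k, hk, hreq⟩ := req_inf (2, Hc θ v n0) m
  obtain ⟨j, hj, hadv⟩ := adv (k + 1)
  refine ⟨j + 1, fun x hx => ?_⟩
  have hx' : Ev fun t => rp x t < rp n0 t + 1 := by
    rcases hx with h | rfl
    · exact Ev.mono h fun t ht => by
        have : rp x t < rp n0 t := ht
        omega
    · exact Ev.of fun t => Nat.lt_succ_self _
  -- the gap
  have hgap : Ev fun t => ∀ h ∈ dec (E (Hc θ v n0) t), (∀ y ∈ (st (k + 1) t).1, h < y) ∨
      (∀ y ∈ (st (k + 1) t).1, y < h) := by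
    refine (bdd_le hk hm).mono2 (Ev.ge (k + 1)) fun t h1 h2 => ?_
    rw [st_succ, hreq]
    refine (stepGap_spec (inv_st' h2) (E (Hc θ v n0) t)).2.2.2.2 ?_
    refine (card_Hc θ v n0 t).trans ?_
    have : E (rc n0) t < (st k t).2.2 := h1
    rw [E_rc] at this
    omega
  constructor
  · rintro ⟨k', hk'⟩
    rw [los2] at hk'
    obtain ⟨l, hl⟩ := rc_bdd k'
    have hl' : Ev fun t => rp k' t < (st (max l (k + 1)) t).2.2 := bdd_le (le_max_left _ _) hl
    refine ((hk'.and hl').and (hx'.and hgap)).mono3 (Ev.ge (max l (k + 1)))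
      ((Ev.ge (j + 1)).and (rp_top k')) ?_
    rintro t ⟨⟨h1, h2⟩, h3, h4⟩ h5 ⟨h6, h7⟩
    classical
    have hex : ∃ y, T2 θ v t y (rp x t) := ⟨_, h1⟩
    have hle : Nat.find hex ≤ rp k' t := Nat.find_min' hex h1
    have hmem : Nat.find hex ∈ dec (E (Hc θ v n0) t) := by
      rw [mem_Hc]
      exact ⟨by omega, rp x t, h3, Nat.find_spec hex, fun y hy => Nat.find_min hex hy⟩
    refine ⟨Nat.find hex, ?_, Nat.find_spec hex⟩
    rcases h4 _ hmem with h | h
    · obtain ⟨y, hy, hy'⟩ := (hadv t h6).2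
      have := h y ((st_le hj (by omega)).1 hy)
      omega
    · exfalso
      obtain ⟨y, hy⟩ := st_ne h5
      have e1 := h y ((st_le (le_max_right l (k + 1)) h5).1 hy)
      have e2 := st_lb h5 y hy
      omega
  · intro h
    obtain ⟨a, ha⟩ := wit (uC (j + 1)) (c2 θ v .var (.clo (rc x))) (bdd_uC _) (h.mono fun t ht => by
      obtain ⟨y, hy, hy'⟩ := ht
      refine ⟨y, by rw [E_uC]; exact hy, ?_⟩
      rw [tr_c2]
      exact hy')
    refine ⟨a, ?_⟩
    rw [los2]
    refine ha.mono fun t ht => ?_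
    have := ht.2.1
    rw [tr_c2] at this
    exact this

theorem pp_lt' (x y : PP.M) : PP.lt x y ↔ Ev fun t => rp x t < rp y t := Iff.rfl

theorem sigma1 (θ : Delta0 PP) (v : ℕ → PP.M)
    (h0 : ∃ k, θ.Holds (RM.cons k (RM.cons PP.zero v)))
    (hs : ∀ n, (∃ k, θ.Holds (RM.cons k (RM.cons n v))) →
      ∃ k, θ.Holds (RM.cons k (RM.cons (PP.add n PP.one) v))) (n0 : PP.M) :
    ∃ k, θ.Holds (RM.cons k (RM.cons n0 v)) := by
  by_contra hcon
  obtain ⟨j, hj⟩ := witness_bound θ v n0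
  -- internal search for the least failure
  have hn0 := (hj n0 (Or.inr rfl)).not.mp hcon
  rw [← Ev.not] at hn0
  let body : Cd := cNot (cEx (.clo (uC j)) (c2 θ v .var (.lift .var)))
  have hbody : ∀ t x, ev body t (consN x (fun _ => 0)) ≠ 0 ↔
      ¬ ∃ y < (st j t).2.2, T2 θ v t y x := by
    intro t x
    simp only [body, tr_cNot, tr_cEx, tr_c2, ev_clo, E_uC, ev_var, ev_lift, consN_zero,
      consN_succ]
  have hb : Bdd (cAdd (rc n0) (.nat 1)) := bdd_add (rc_bdd n0) (bdd_nat 1)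
  have eb : ∀ t, E (cAdd (rc n0) (.nat 1)) t = rp n0 t + 1 := by
    intro t
    show ev _ _ _ = _
    rw [ev_cAdd]; rfl
  obtain ⟨a, ha⟩ := wit (cAdd (rc n0) (.nat 1)) body hb (hn0.mono fun t ht =>
    ⟨rp n0 t, by rw [eb]; omega, (hbody _ _).mpr ht⟩)
  have ha' : PP.lt a n0 ∨ a = n0 := by
    rw [pp_ext, pp_lt', ← Ev.or_iff]
    refine ha.mono fun t ht => ?_
    have := ht.1
    rw [eb] at this
    omega
  have ha0 : a ≠ PP.zero := by
    intro he
    have h1 : (Ev fun t => rp PP.zero t < rp n0 t) ∨ Ev fun t => rp PP.zero t = rp n0 t := by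
      rw [← Ev.or_iff]
      exact rv_zero.mono fun t ht => by rw [ht]; omega
    have h2 := (hj PP.zero (h1.imp id (fun h => pp_ext.mpr h))).mp h0
    refine (h2.mono2 ha fun t h3 h4 => ?_).false
    have h5 := (hbody _ _).mp h4.2.1
    rw [he] at h5
    exact h5 h3
  have hpos : Ev fun t => 0 < rp a t := by
    by_contra hc
    rw [← Ev.not] at hc
    apply ha0
    rw [pp_ext]
    refine hc.mono2 rv_zero fun t h1 h2 => ?_
    rw [h2]; omega
  -- the predecessor
  have hbd : Bdd (.op 10 (.pair (rc a) (.nat 1))) := (rc_bdd a).of_le (Ev.of fun t => by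
    show ev _ _ _ ≤ _
    simp [ev, opf, E])
  have ep : ∀ t, E (.op 10 (.pair (rc a) (.nat 1))) t = rp a t - 1 := by
    intro t
    show ev _ _ _ = _
    simp [ev, opf]
    rfl
  let p : PP.M := mkp _ hbd
  have hp : Ev fun t => rp p t = rp a t - 1 := (rp_mkp _ hbd).mono fun t ht => by rw [ht, ep]
  have hpa : PP.add p PP.one = a := by
    rw [pp_ext]
    refine (rv_add p PP.one).mono3 (rv_one.and hp) hpos fun t h1 h2 h3 => ?_
    rw [h1, h2.1, h2.2]; omega
  have hpn : PP.lt p n0 ∨ p = n0 := by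
    rw [pp_ext, pp_lt', ← Ev.or_iff]
    refine ha.mono3 hp hpos fun t h1 h2 h3 => ?_
    have := h1.1
    rw [eb] at this
    omega
  have hpk : ∃ k, θ.Holds (RM.cons k (RM.cons p v)) := by
    rw [hj p hpn]
    refine ha.mono3 hp hpos fun t h1 h2 h3 => ?_
    by_contra hc
    exact h1.2.2 (rp p t) (by omega) ((hbody _ _).mpr hc)
  have hak := hs p hpk
  rw [hpa] at hak
  have h2 := (hj a ha').mp hak
  refine (h2.mono2 ha fun t h3 h4 => ?_).false
  exact (hbody _ _).mp h4.2.1 h3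

/-- code for comprehension -/
noncomputable def Kc (θ ψ : Delta0 PP) (v : ℕ → PP.M) : Cd :=
  .setc topC (cEx topC (cAnd (c2 θ v .var (.lift .var))
    (cAll .var (c2 ψ v .var (.lift (.lift .var))))))

theorem mem_Kc (θ ψ : Delta0 PP) (v : ℕ → PP.M) (t x : ℕ) :
    x ∈ dec (E (Kc θ ψ v) t) ↔ x < TT t + 1 ∧ ∃ y < TT t + 1, T2 θ v t y x ∧
      ∀ y' < y, T2 ψ v t y' x := by
  unfold E Kc
  rw [mem_setc, ev_topC, tr_cEx, ev_topC]
  simp only [tr_cAnd, tr_cAll, tr_c2, ev_lift, ev_var, consN_zero, consN_succ]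

theorem delta1 (θ ψ : Delta0 PP) (v : ℕ → PP.M)
    (h : ∀ n, (∃ k, θ.Holds (RM.cons k (RM.cons n v))) ↔ ∀ k, ψ.Holds (RM.cons k (RM.cons n v))) :
    {n | ∃ k, θ.Holds (RM.cons k (RM.cons n v))} ∈ PP.Sets := by
  refine ⟨Kc θ ψ v, fun n => ?_⟩
  change (∃ k, θ.Holds (RM.cons k (RM.cons n v))) ↔ Ev fun t => rp n t ∈ dec (E (Kc θ ψ v) t)
  constructor
  · rintro ⟨k, hk⟩
    have hψ := (h n).mp ⟨k, hk⟩
    have hall : Ev fun t => ∀ y' < rp k t, T2 ψ v t y' (rp n t) := by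
      by_contra hc
      rw [← Ev.not] at hc
      obtain ⟨a, ha⟩ := wit (rc k) (cNot (c2 ψ v .var (.clo (rc n)))) (rc_bdd k)
        (hc.mono fun t ht => by
          push Not at ht
          obtain ⟨y', h1, h2⟩ := ht
          refine ⟨y', h1, ?_⟩
          rw [tr_cNot, tr_c2]
          exact h2)
      have h3 := hψ a
      rw [los2] at h3
      refine (h3.mono2 ha fun t h4 h5 => ?_).false
      have h6 := h5.2.1
      rw [tr_cNot, tr_c2] at h6
      exact h6 h4
    rw [los2] at hk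
    refine (hk.and hall).mono3 (rp_top k) (rp_top n) fun t h1 h2 h3 => ?_
    rw [mem_Kc]
    exact ⟨by omega, rp k t, by omega, h1.1, h1.2⟩
  · intro hE
    by_contra hcon
    have hψ : ∃ k0, ¬ ψ.Holds (RM.cons k0 (RM.cons n v)) := by
      by_contra hc
      push Not at hc
      exact hcon ((h n).mpr hc)
    obtain ⟨k0, hk0⟩ := hψ
    rw [los2, ← Ev.not] at hk0
    -- witnesses are at most `k0`
    obtain ⟨a, ha⟩ := wit (cAdd (rc k0) (.nat 1)) (c2 θ v .var (.clo (rc n)))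
      (bdd_add (rc_bdd k0) (bdd_nat 1)) (hE.mono2 hk0 fun t h1 h2 => by
        rw [mem_Kc] at h1
        obtain ⟨_, y, _, h3, h4⟩ := h1
        have e : E (cAdd (rc k0) (.nat 1)) t = rp k0 t + 1 := by
          show ev _ _ _ = _
          rw [ev_cAdd]; rfl
        refine ⟨y, ?_, ?_⟩
        · rw [e]
          by_contra hc
          exact h2 (h4 _ (by omega))
        · rw [tr_c2]
          exact h3)
    apply hcon
    refine ⟨a, ?_⟩
    rw [los2]
    refine ha.mono fun t ht => ?_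
    have := ht.2.1
    rw [tr_c2] at this
    exact this

instance isModel : IsModelRCA0 PP where
  ax_succ_ne_zero n hn := by
    rw [pp_ext] at hn
    refine (hn.mono3 (rv_add n PP.one) (rv_one.and rv_zero) fun t h1 h2 h3 => ?_).false
    rw [h2, h3.1, h3.2] at h1
    omega
  ax_succ_inj m n h := by
    rw [pp_ext] at h ⊢
    refine (h.and rv_one).mono3 (rv_add m PP.one) (rv_add n PP.one) fun t h1 h2 h3 => ?_
    have := h1.1
    rw [h2, h3, h1.2] at this
    omega
  ax_add_zero m := by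
    rw [pp_ext]
    exact (rv_add m PP.zero).mono2 rv_zero fun t h1 h2 => by rw [h1, h2]; rfl
  ax_add_succ m n := by
    rw [pp_ext]
    refine ((rv_add m (PP.add n PP.one)).and (rv_add n PP.one)).mono3
      (rv_add (PP.add m n) PP.one) (rv_add m n) fun t h1 h2 h3 => ?_
    rw [h1.1, h1.2, h2, h3]; omega
  ax_mul_zero m := by
    rw [pp_ext]
    exact (rv_mul m PP.zero).mono2 rv_zero fun t h1 h2 => by rw [h1, h2]; rfl
  ax_mul_succ m n := by
    rw [pp_ext]
    refine ((rv_mul m (PP.add n PP.one)).and (rv_add n PP.one)).mono3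
      ((rv_add (PP.mul m n) m).and rv_one) (rv_mul m n) fun t h1 h2 h3 => ?_
    rw [h1.1, h1.2, h2.1, h3, h2.2]; ring
  ax_not_lt_zero m h := by
    rw [pp_lt'] at h
    refine (h.mono2 rv_zero fun t h1 h2 => ?_).false
    omega
  ax_lt_succ m n := by
    rw [pp_ext, pp_lt', pp_lt', ← Ev.or_iff]
    refine Ev.congr ((rv_add n PP.one).mono2 rv_one fun t h1 h2 => ?_)
    rw [h1, h2]; omega
  sigma1_induction := sigma1
  delta1_comprehension := delta1

end Pool.Agent.KS6_49.CW.CR
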