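import Pool.Agent.KS6_49.CW.Mod4
import Pool.Agent.KS6_49.CW.CRDefs

/-!
Cohesive Ramsey's theorem for pairs holds and the cohesiveness principle fails in the structure.
-/

namespace Pool.Agent.KS6_49.CW.CR

open Filter CT Pool.Agent.KS6_49.CW.RM

variable [Par]

theorem rp_pair (x y : PP.M) : Ev fun t => rp (PP.pair x y) t = prn (rp x t) (rp y t) := by
  unfold L2Structure.pair
  refine ((rv_add (PP.mul (PP.add x y) (PP.add x y)) x).and
    (rv_mul (PP.add x y) (PP.add x y))).mono2 (rv_add x y) fun t h1 h2 => ?_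
  rw [h1.1, h1.2, h2]; rfl

theorem pair_inj {x y x' y' : PP.M} (h : PP.pair x y = PP.pair x' y') : x = x' ∧ y = y' := by
  rw [pp_ext] at h
  have key : Ev fun t => rp x t = rp x' t ∧ rp y t = rp y' t :=
    h.mono3 (rp_pair x y) (rp_pair x' y') fun t h1 h2 h3 => by
      rw [h2, h3] at h1
      exact prn_inj h1
  exact ⟨pp_ext.mpr (key.mono fun _ h => h.1), pp_ext.mpr (key.mono fun _ h => h.2)⟩

/-- the internal sets of the stages are infinite in the structure -/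
theorem stage_infinite (k : ℕ) (b : PP.M) : ∃ a : PP.M, ¬ PP.lt a b ∧
    Ev fun t => rp a t ∈ (st k t).1 := by
  obtain ⟨m, hm⟩ := rc_bdd b
  obtain ⟨j, hj, hadv⟩ := adv (max m k)
  obtain ⟨a, ha⟩ := wit (uC (j + 1)) (cMem .var (.clo (yC j))) (bdd_uC _)
    ((Ev.ge (j + 1)).mono fun t ht => by
      obtain ⟨x, hx, hx'⟩ := (hadv t ht).2
      refine ⟨x, by rw [E_uC]; exact hx', ?_⟩
      rw [tr_cMem, ev_clo, E_yC]
      exact hx)
  have hmem : Ev fun t => rp a t ∈ (st j t).1 := ha.mono fun t ht => by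
    have := ht.2.1
    rw [tr_cMem, ev_clo, E_yC] at this
    exact this
  refine ⟨a, ?_, ?_⟩
  · intro hlt
    rw [pp_lt'] at hlt
    refine ((hlt.and hmem).mono3 (bdd_le ((le_max_left m k).trans hj) hm) (Ev.ge j) ?_).false
    intro t h1 h2 h3
    have h4 := st_lb h3 _ h1.2
    have h5 : rp b t < (st j t).2.2 := h2
    omega
  · exact hmem.mono2 (Ev.ge j) fun t h1 h2 => (st_le ((le_max_right m k).trans hj) h2).1 h1

/-- numbers beyond the bound of a later stage are in the hull of a stage -/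
theorem in_hull {k j : ℕ} (hj : k ≤ j)
    (hadv : ∀ t, j + 1 ≤ t → ∃ x ∈ (st j t).1, x < (st (j + 1) t).2.2) (y : PP.M) :
    Ev fun t => ∀ z, (st (j + 1) t).2.2 ≤ z → z ≤ rp y t →
      (∃ a ∈ (st k t).1, a ≤ z) ∧ (∃ b ∈ (st k t).1, z ≤ b) := by
  obtain ⟨m, hm⟩ := rc_bdd y
  have hm' : Ev fun t => rp y t < (st (max m k) t).2.2 := bdd_le (le_max_left _ _) hm
  refine hm'.mono3 (Ev.ge (j + 1)) (Ev.ge (max m k)) fun t h1 h2 h3 z hz1 hz2 => ?_
  obtain ⟨x, hx, hx'⟩ := hadv t h2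
  obtain ⟨b, hb⟩ := st_ne h3
  have hb' := st_lb h3 b hb
  exact ⟨⟨x, (st_le hj (by omega)).1 hx, by omega⟩,
    b, (st_le (le_max_right m k) h3).1 hb, by omega⟩

/-- every colour is removed -/
theorem removed (x : PP.M) (k0 : ℕ) : ∃ k, k0 ≤ k ∧ ∃ b : PP.M, ∀ y : PP.M,
    Ev fun t => ∀ z, rp b t ≤ z → z ≤ rp y t → cl t (rp x t) ∉ (st k t).2.1.rng ∧
      cl t z ∈ (st k t).2.1.rng := by
  obtain ⟨k, hk, hreq⟩ := req_inf (0, .op 12 (.pair .idx (rc x))) k0
  obtain ⟨j, hj, hadv⟩ := adv (k + 1)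
  refine ⟨k + 1, by omega, mkp (uC (j + 1)) (bdd_uC _), fun y => ?_⟩
  refine (in_hull hj (fun t ht => (hadv t ht).2) y).mono3 (rp_mkp (uC (j + 1)) (bdd_uC _))
    (Ev.ge (k + 1)) fun t h1 h2 h3 z hz1 hz2 => ?_
  rw [h2, E_uC] at hz1
  refine ⟨?_, L_Cv (inv_st (k + 1) t h3).1 z (h1 z hz1 hz2).1 (h1 z hz1 hz2).2⟩
  rw [st_succ, hreq]
  have e : E (.op 12 (.pair .idx (rc x))) t = cl t (rp x t) := by
    show ev _ _ _ = _
    simp [ev, opf]
    rfl
  have := (stepColor_spec (inv_st' h3) (E (.op 12 (.pair .idx (rc x))) t)).2.2.2.2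
  rw [e] at this
  show cl t (rp x t) ∉ (stepColor t (t - (k + 1)) (st k t)
    (E (.op 12 (.pair .idx (rc x))) t)).2.1.rng
  rw [e]
  exact this

theorem lt_trans' {x y z : PP.M} (h1 : PP.lt x y) (h2 : PP.lt y z) : PP.lt x z :=
  Ev.mono2 h1 h2 fun _ h3 h4 => lt_trans h3 h4

/-- cohesive Ramsey's theorem for pairs -/
theorem crt : CRT22 PP := by
  intro c hc
  obtain ⟨K, hK⟩ := hc
  obtain ⟨k, _, hreq⟩ := req_inf (1, K) 0
  have hst : ∀ t, k + 1 ≤ t → Star (cl t) (cOf (E K t)) (st (k + 1) t).2.1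
      ((st (k + 1) t).1 : Set ℕ) := by
    intro t ht
    rw [st_succ, hreq]
    exact (stepPair_spec (inv_st' ht) (E K t)).2.2.2.2
  have hcol : ∀ x y, PP.lt x y → (c x y = 1 ↔
      Ev fun t => cOf (E K t) (rp x t) (rp y t) = true) := by
    intro x y hxy
    constructor
    · intro h
      have h2 : PP.pair x y ∈ {p | ∃ x y, PP.lt x y ∧ c x y = 1 ∧ p = PP.pair x y} :=
        ⟨x, y, hxy, h, rfl⟩
      refine ((hK _).mp h2).mono2 (rp_pair x y) fun t h3 h4 => ?_
      unfold cOf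
      rw [decide_eq_true_iff, ← h4]
      exact h3
    · intro h
      have h2 : PP.pair x y ∈ {p | ∃ x y, PP.lt x y ∧ c x y = 1 ∧ p = PP.pair x y} := by
        refine (hK _).mpr (h.mono2 (rp_pair x y) fun t h3 h4 => ?_)
        unfold cOf at h3
        rw [decide_eq_true_iff] at h3
        show rp _ t ∈ _
        rw [h4]
        exact h3
      obtain ⟨x', y', _, h4, h5⟩ := h2
      obtain ⟨e1, e2⟩ := pair_inj h5
      rw [e1, e2]; exact h4
  refine ⟨{x | Ev fun t => rp x t ∈ (st (k + 1) t).1}, ⟨yC (k + 1), fun x => ?_⟩, ?_, ?_⟩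
  · refine Ev.congr (Ev.of fun t => ?_)
    rw [E_yC]
    exact Iff.rfl
  · rintro ⟨b, hb⟩
    obtain ⟨a, ha1, ha2⟩ := stage_infinite (k + 1) b
    exact ha1 (hb a ha2)
  · intro x hx
    obtain ⟨k2, hk2, b, hb⟩ := removed x (k + 1)
    -- the colour is constant beyond `b`
    have key : ∀ y1 y2 : PP.M, (Ev fun t => rp y1 t ∈ (st (k + 1) t).1) →
        (Ev fun t => rp y2 t ∈ (st (k + 1) t).1) → PP.lt x y1 → PP.lt b y1 → PP.lt y1 y2 →
          c x y1 = c x y2 := by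
      intro y1 y2 hy1 hy2 h1 h2 h3
      have h4 := lt_trans' h1 h3
      have e : (Ev fun t => cOf (E K t) (rp x t) (rp y1 t) = true) ↔
          Ev fun t => cOf (E K t) (rp x t) (rp y2 t) = true := by
        rw [pp_lt'] at h1 h2 h3
        refine Ev.congr ?_
        refine (((Ev.and hx hy1).and hy2).and ((h1.and h2).and h3)).mono3 (hb y2)
          (Ev.ge k2) ?_
        rintro t ⟨⟨⟨e1, e2⟩, e3⟩, ⟨e4, e5⟩, e6⟩ e7 e8
        have h9 := hst t (by omega) (st k2 t).2.1.rng (st_emb hk2 e8).rng_mem (rp x t) e1 (rp y1 t)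
          e2 (rp y2 t) e3 e4 e6 (e7 (rp y1 t) e5.le e6.le).1
          (fun z hz1 hz2 => (e7 z (by omega) hz2).2)
        rw [h9]
      have e' : c x y1 = 1 ↔ c x y2 = 1 := by
        rw [hcol x y1 h1, hcol x y2 h4]
        exact e
      have h5 : ∀ a b : Fin 2, (a = 1 ↔ b = 1) → a = b := by decide
      exact h5 _ _ e'
    obtain ⟨y0, hy01, hy02⟩ := stage_infinite (k + 1) (PP.add (PP.add b x) PP.one)
    have hy0 : Ev fun t => rp b t < rp y0 t ∧ rp x t < rp y0 t := by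
      have h1 : Ev fun t => ¬ rp y0 t < rp (PP.add (PP.add b x) PP.one) t := by
        rw [Ev.not]; exact hy01
      refine (h1.and rv_one).mono3 (rv_add (PP.add b x) PP.one) (rv_add b x)
        fun t h2 h3 h4 => ?_
      have h5 := h2.1
      rw [h3, h4, h2.2] at h5
      omega
    have hby0 : PP.lt b y0 := hy0.mono fun _ h => h.1
    have hxy0 : PP.lt x y0 := hy0.mono fun _ h => h.2
    refine ⟨c x y0, b, ?_⟩
    intro y hy hxy hby
    have htri : PP.lt y y0 ∨ y = y0 ∨ PP.lt y0 y := by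
      rw [pp_ext, pp_lt', pp_lt', ← Ev.or_iff, ← Ev.or_iff]
      exact Ev.of fun t => lt_trichotomy _ _
    rcases htri with h | h | h
    · exact key y y0 hy hy02 hxy hby h
    · rw [h]
    · exact (key y0 y hy02 hy hxy0 hby0 h).symm

/-! ### failure of cohesiveness -/

/-- code of the sequence of sets -/
def RC : Cd := .setc topC (cEx (cAdd .var (.nat 1)) (cEx (cAdd (.lift .var) (.nat 1))
  (cAnd (cEq (.lift (.lift .var)) (cPr (.lift .var) .var))
    (cMem (.op 12 (.pair .idx .var)) (.lift .var)))))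

theorem mem_RC (t p : ℕ) : p ∈ dec (E RC t) ↔ p < TT t + 1 ∧ ∃ i < p + 1, ∃ y < p + 1,
    p = prn i y ∧ cl t y ∈ dec i := by
  unfold E RC
  rw [mem_setc, ev_topC, tr_cEx]
  have : ∀ x w, ev (.op 12 (.pair .idx .var)) t (consN x w) = cl t x := by
    intro x w
    simp [ev, opf, consN]
  simp only [tr_cEx, tr_cAnd, tr_cEq, tr_cMem, ev_cAdd, ev_var, ev_nat, ev_lift, consN_zero,
    consN_succ, ev_cPr, this]

/-- the sequence of sets -/
noncomputable def RS : Set PP.M := {x | Ev fun t => rp x t ∈ dec (E RC t)}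

theorem RS_mem : RS ∈ PP.Sets := ⟨RC, fun _ => Iff.rfl⟩

theorem mem_RS (i y : PP.M) : PP.pair i y ∈ RS ↔ Ev fun t => cl t (rp y t) ∈ dec (rp i t) := by
  constructor
  · intro h
    have h' : Ev fun t => rp (PP.pair i y) t ∈ dec (E RC t) := h
    refine h'.mono2 (rp_pair i y) fun t h1 h2 => ?_
    rw [mem_RC] at h1
    obtain ⟨_, i', _, y', _, hx, hc⟩ := h1
    rw [h2] at hx
    obtain ⟨e1, e2⟩ := prn_inj hx
    rw [e1, e2]; exact hc
  · intro h
    show Ev fun t => rp (PP.pair i y) t ∈ dec (E RC t)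
    refine h.mono3 (rp_pair i y) (rp_top (PP.pair i y)) fun t h1 h2 h3 => ?_
    rw [mem_RC]
    refine ⟨by omega, rp i t, ?_, rp y t, ?_, h2, h1⟩
    · rw [h2]
      unfold prn
      nlinarith [Nat.zero_le ((rp i t + rp y t) * (rp i t + rp y t))]
    · rw [h2]
      unfold prn
      nlinarith [Nat.zero_le ((rp i t + rp y t) * (rp i t + rp y t))]

theorem bdd_MB {c : Cd} (h : ∀ t, E c t ≤ MB t) : Bdd c := ⟨0, Ev.of fun t => by
  rw [st_zero]
  show _ < MB t + 1
  have := h t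
  omega⟩

theorem not_lt' (x y : PP.M) : ¬ PP.lt x y ↔ Ev fun t => rp y t ≤ rp x t := by
  rw [pp_lt', ← Ev.not]
  exact Ev.congr (Ev.of fun t => not_lt)

end Pool.Agent.KS6_49.CW.CR
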