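import Pool.Agent.KS6_49.CW.Mod5
import Pool.Agent.KS6_49.CW.More

/-!
`Σ⁰₁` separation, weak König's lemma and the failure of cohesiveness for sequences of bounded
length.
-/

namespace Pool.Agent.KS6_49.CW.CR

open Filter CT Pool.Agent.KS6_49.CW.RM

variable [Par]

theorem T2_neg (ψ : Delta0 PP) (v : ℕ → PP.M) (t y x : ℕ) :
    T2 (.neg ψ) v t y x ↔ ¬ T2 ψ v t y x := Iff.rfl

/-- separation for `Σ⁰₁` formulas -/
theorem sigmaSep : SigmaSep PP := by
  intro θ ψ v h
  refine ⟨{n | Ev fun t => rp n t ∈ dec (E (Kc θ (.neg ψ) v) t)}, ⟨_, fun _ => Iff.rfl⟩,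
    fun n => ⟨?_, ?_⟩⟩
  · rintro ⟨k, hk⟩
    show Ev fun t => rp n t ∈ dec (E (Kc θ (.neg ψ) v) t)
    have hall : Ev fun t => ∀ y' < rp k t, T2 (.neg ψ) v t y' (rp n t) := by
      by_contra hc
      rw [← Ev.not] at hc
      obtain ⟨a, ha⟩ := wit (rc k) (c2 ψ v .var (.clo (rc n))) (rc_bdd k)
        (hc.mono fun t ht => by
          push Not at ht
          obtain ⟨y', h1, h2⟩ := ht
          refine ⟨y', h1, ?_⟩
          rw [tr_c2]
          rw [T2_neg, not_not] at h2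
          exact h2)
      refine h n ⟨⟨k, hk⟩, a, ?_⟩
      rw [los2]
      refine ha.mono fun t ht => ?_
      have h6 := ht.2.1
      rw [tr_c2] at h6
      exact h6
    rw [los2] at hk
    refine (hk.and hall).mono3 (rp_top k) (rp_top n) fun t h1 h2 h3 => ?_
    rw [mem_Kc]
    exact ⟨by omega, rp k t, by omega, h1.1, h1.2⟩
  · rintro ⟨k0, hk0⟩ hE
    have hE' : Ev fun t => rp n t ∈ dec (E (Kc θ (.neg ψ) v) t) := hE
    have hk1 := hk0
    rw [los2] at hk1
    obtain ⟨a, ha⟩ := wit (cAdd (rc k0) (.nat 1)) (c2 θ v .var (.clo (rc n)))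
      (bdd_add (rc_bdd k0) (bdd_nat 1)) (hE'.mono2 hk1 fun t h1 h2 => by
        rw [mem_Kc] at h1
        obtain ⟨_, y, _, h3, h4⟩ := h1
        have e : E (cAdd (rc k0) (.nat 1)) t = rp k0 t + 1 := by
          show ev _ _ _ = _
          rw [ev_cAdd]; rfl
        refine ⟨y, ?_, ?_⟩
        · rw [e]
          by_contra hc
          exact (T2_neg ψ v t _ _).mp (h4 _ (by omega)) h2
        · rw [tr_c2]
          exact h3)
    refine h n ⟨⟨a, ?_⟩, k0, hk0⟩
    rw [los2]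
    refine ha.mono fun t ht => ?_
    have := ht.2.1
    rw [tr_c2] at this
    exact this

/-! ### weak König's lemma -/

omit [Par] in
theorem Anc.self (z : ℕ) : Anc z z := ⟨0, by simp⟩

omit [Par] in
theorem Anc.le {z x : ℕ} (h : Anc z x) : x ≤ z := by
  obtain ⟨j, rfl⟩ := h
  exact Nat.div_le_self _ _

omit [Par] in
theorem Anc.half {z x y : ℕ} (h : Anc z y) (hx : y = x + x ∨ y = x + x + 1) : Anc z x := by
  obtain ⟨j, hj⟩ := h
  refine ⟨j + 1, ?_⟩
  rw [pow_succ, ← Nat.div_div_eq_div_mul, ← hj]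
  omega

omit [Par] in
theorem Anc.child {z x : ℕ} (h : Anc z x) (hx : x < z) :
    Anc z (x + x) ∨ Anc z (x + x + 1) := by
  obtain ⟨j, hj⟩ := h
  cases j with
  | zero => simp at hj; omega
  | succ j =>
    rw [pow_succ, ← Nat.div_div_eq_div_mul] at hj
    have h1 : z / 2 ^ j = x + x ∨ z / 2 ^ j = x + x + 1 := by omega
    rcases h1 with h | h
    · exact Or.inl ⟨j, h.symm⟩
    · exact Or.inr ⟨j, h.symm⟩

omit [Par] in
theorem Anc.unique {z x : ℕ} (hx : x ≠ 0) (h1 : Anc z (x + x)) (h2 : Anc z (x + x + 1)) :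
    False := by
  obtain ⟨i, hi⟩ := h1
  obtain ⟨j, hj⟩ := h2
  rcases lt_trichotomy i j with h | h | h
  · obtain ⟨d, rfl⟩ : ∃ d, j = i + 1 + d := ⟨j - (i + 1), by omega⟩
    rw [pow_add, pow_succ, ← Nat.div_div_eq_div_mul, ← Nat.div_div_eq_div_mul, ← hi] at hj
    have h3 : (x + x) / 2 / 2 ^ d ≤ (x + x) / 2 := Nat.div_le_self _ _
    omega
  · subst h
    omega
  · obtain ⟨d, rfl⟩ : ∃ d, i = j + 1 + d := ⟨i - (j + 1), by omega⟩
    rw [pow_add, pow_succ, ← Nat.div_div_eq_div_mul, ← Nat.div_div_eq_div_mul, ← hj] at hi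
    have h3 : (x + x + 1) / 2 / 2 ^ d ≤ (x + x + 1) / 2 := Nat.div_le_self _ _
    omega

omit [Par] in
theorem Anc.one {z : ℕ} (hz : z ≠ 0) : Anc z 1 := by
  refine ⟨Nat.log 2 z, ?_⟩
  have h1 := Nat.pow_log_le_self 2 hz
  have h2 := Nat.lt_pow_succ_log_self (b := 2) (by norm_num) z
  symm
  rw [Nat.div_eq_iff (by positivity)]
  rw [pow_succ] at h2
  omega

omit [Par] in
theorem mem_pathz {z x : ℕ} : x ∈ dec (pathz z) ↔ x ≠ 0 ∧ Anc z x := by
  classical
  unfold pathz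
  rw [dec_encode, Finset.mem_filter, Finset.mem_range]
  exact ⟨fun h => h.2, fun h => ⟨Nat.lt_succ_of_le h.2.le, h⟩⟩

omit [Par] in
theorem topz_spec (b K : ℕ) : AllIn K (topz b K) := by
  classical
  have h0 : AllIn K 0 := by
    rintro x hx ⟨j, hj⟩
    simp at hj
    exact absurd hj hx
  exact Nat.findGreatest_spec (P := fun z => AllIn K z) (Nat.zero_le b) h0

omit [Par] in
theorem le_topz {b K z : ℕ} (h : z ≤ b) (hz : AllIn K z) : z ≤ topz b K := by
  classical
  exact Nat.le_findGreatest (P := fun z => AllIn K z) h hz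

omit [Par] in
theorem badz_le (z K : ℕ) : badz z K ≤ z := by
  classical
  exact Nat.findGreatest_le z

omit [Par] in
theorem badz_spec {z K : ℕ} (h : ¬ AllIn K z) :
    badz z K ≠ 0 ∧ Anc z (badz z K) ∧ badz z K ∉ dec K ∧
      ∀ y, badz z K < y → Anc z y → y ∈ dec K := by
  classical
  unfold AllIn at h
  push Not at h
  obtain ⟨x, hx, hx1, hx2⟩ := h
  have h1 := Nat.findGreatest_spec (P := fun x => x ≠ 0 ∧ Anc z x ∧ x ∉ dec K) hx1.le
    ⟨hx, hx1, hx2⟩
  refine ⟨h1.1, h1.2.1, h1.2.2, fun y hy hy1 => ?_⟩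
  by_contra hc
  have h2 := Nat.findGreatest_is_greatest (P := fun x => x ≠ 0 ∧ Anc z x ∧ x ∉ dec K) hy hy1.le
  exact h2 ⟨by omega, hy1, hc⟩

/-- weak König's lemma -/
theorem wkl : WKL PP := by
  rintro T ⟨K, hK0⟩ ⟨h0, htree⟩ hinf
  have hK : ∀ x : PP.M, x ∈ T ↔ Ev fun t => rp x t ∈ dec (E K t) := hK0
  -- doubling
  have hdbl : ∀ x : PP.M, Ev fun t => rp (PP.add x x) t = rp x t + rp x t := fun x => rv_add x x
  have hdbl1 : ∀ x : PP.M, Ev fun t => rp (PP.add (PP.add x x) PP.one) t =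
      rp x t + rp x t + 1 := fun x =>
    (rv_add (PP.add x x) PP.one).mono3 (hdbl x) rv_one fun t h1 h2 h3 => by rw [h1, h2, h3]
  have hne0 : ∀ x : PP.M, x ≠ PP.zero ↔ Ev fun t => rp x t ≠ 0 := by
    intro x
    rw [Ne, pp_ext, ← Ev.not]
    refine Ev.congr (rv_zero.mono fun t h => by rw [h])
  -- claim 1
  have hall : ∀ a ∈ T, Ev fun t => AllIn (E K t) (rp a t) := by
    intro a ha
    by_contra hc
    rw [← Ev.not] at hc
    have hE : ∀ t, E (.op 17 (.pair (rc a) K)) t = badz (rp a t) (E K t) := by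
      intro t
      show ev _ _ _ = _
      simp [ev, opf]
      rfl
    have hbd : Bdd (.op 17 (.pair (rc a) K)) := (rc_bdd a).of_le (Ev.of fun t => by
      rw [hE]; exact badz_le _ _)
    let x : PP.M := mkp _ hbd
    have hx : Ev fun t => rp x t = badz (rp a t) (E K t) :=
      (rp_mkp _ hbd).mono fun t h => h.trans (hE t)
    have hx1 : Ev fun t => rp x t ≠ 0 ∧ Anc (rp a t) (rp x t) ∧ rp x t ∉ dec (E K t) ∧
        ∀ y, rp x t < y → Anc (rp a t) y → y ∈ dec (E K t) :=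
      hx.mono2 hc fun t h1 h2 => by rw [h1]; exact badz_spec h2
    have hx0 : x ≠ PP.zero := (hne0 x).mpr (hx1.mono fun _ h => h.1)
    have haT := (hK a).mp ha
    have hor : Ev fun t => (rp x t + rp x t ∈ dec (E K t)) ∨ (rp x t + rp x t + 1 ∈ dec (E K t)) :=
      hx1.mono2 haT fun t h1 h2 => by
        have hlt : rp x t < rp a t := by
          refine lt_of_le_of_ne h1.2.1.le fun he => h1.2.2.1 ?_
          rw [he]; exact h2
        have hp : rp x t ≠ 0 := h1.1
        rcases h1.2.1.child hlt with h | h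
        · exact Or.inl (h1.2.2.2 _ (by omega) h)
        · exact Or.inr (h1.2.2.2 _ (by omega) h)
    have hxT : x ∈ T := by
      rw [Ev.or_iff] at hor
      rcases hor with h | h
      · refine htree x (PP.add x x) hx0 (Or.inl rfl) ((hK _).mpr ?_)
        exact h.mono2 (hdbl x) fun t h1 h2 => by rw [h2]; exact h1
      · refine htree x (PP.add (PP.add x x) PP.one) hx0 (Or.inr rfl) ((hK _).mpr ?_)
        exact h.mono2 (hdbl1 x) fun t h1 h2 => by rw [h2]; exact h1
    exact (((hK x).mp hxT).mono2 hx1 fun t h1 h2 => h2.2.2.1 h1).false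
  -- claim 2
  have hz : ∀ b : PP.M, Ev fun t => rp b t ≤ topz (TT t + 1) (E K t) := by
    intro b
    have : ∃ a ∈ T, ¬ PP.lt a b := by
      by_contra hc
      push Not at hc
      exact hinf ⟨b, hc⟩
    obtain ⟨a, ha, hab⟩ := this
    rw [not_lt'] at hab
    exact (hall a ha).mono3 hab (rp_top a) fun t h1 h2 h3 =>
      h2.trans (le_topz (by omega) h1)
  let c : Cd := .op 16 (.pair topC K)
  have hc : ∀ t, E c t = pathz (topz (TT t + 1) (E K t)) := by
    intro t
    show ev _ _ _ = _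
    simp [c, ev, opf, topC]
    rfl
  let P : Set PP.M := {x | Ev fun t => rp x t ∈ dec (E c t)}
  have hP : ∀ x, x ∈ P ↔ Ev fun t => rp x t ≠ 0 ∧ Anc (topz (TT t + 1) (E K t)) (rp x t) := by
    intro x
    show (Ev fun t => rp x t ∈ dec (E c t)) ↔ _
    refine Ev.congr (Ev.of fun t => ?_)
    rw [hc, mem_pathz]
  have hP2 : ∀ x, PP.add x x ∈ P ↔ Ev fun t => rp x t + rp x t ≠ 0 ∧
      Anc (topz (TT t + 1) (E K t)) (rp x t + rp x t) := fun x => by
    rw [hP]; exact Ev.congr ((hdbl x).mono fun t h => by rw [h])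
  have hP3 : ∀ x, PP.add (PP.add x x) PP.one ∈ P ↔ Ev fun t => rp x t + rp x t + 1 ≠ 0 ∧
      Anc (topz (TT t + 1) (E K t)) (rp x t + rp x t + 1) := fun x => by
    rw [hP]; exact Ev.congr ((hdbl1 x).mono fun t h => by rw [h])
  refine ⟨P, ⟨c, fun _ => Iff.rfl⟩, ?_, ⟨?_, ?_⟩, ?_, ?_⟩
  · intro x hx
    rw [hP] at hx
    exact (hK x).mpr (hx.mono fun t h => topz_spec _ _ _ h.1 h.2)
  · intro h
    rw [hP] at h
    exact (h.mono2 rv_zero fun t h1 h2 => h1.1 h2).false
  · intro x y hx hxy hy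
    rw [hne0] at hx
    rw [hP] at hy ⊢
    have hxy' : Ev fun t => rp y t = rp x t + rp x t ∨ rp y t = rp x t + rp x t + 1 := by
      rcases hxy with h | h
      · exact (hdbl x).mono fun t h1 => by rw [h, h1]; exact Or.inl rfl
      · exact (hdbl1 x).mono fun t h1 => by rw [h, h1]; exact Or.inr rfl
    exact hx.mono3 hxy' hy fun t h1 h2 h3 => ⟨h1, h3.2.half h2⟩
  · rw [hP]
    refine (hz PP.one).mono2 rv_one fun t h1 h2 => ?_
    rw [h2] at h1 ⊢
    exact ⟨one_ne_zero, Anc.one (by omega)⟩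
  · intro x hx
    have hx' := (hP x).mp hx
    have hor : Ev fun t => Anc (topz (TT t + 1) (E K t)) (rp x t + rp x t) ∨
        Anc (topz (TT t + 1) (E K t)) (rp x t + rp x t + 1) :=
      hx'.mono3 (hz (PP.add x PP.one)) ((rv_add x PP.one).and rv_one) fun t h1 h2 h3 => by
        refine h1.2.child ?_
        rw [h3.1, h3.2] at h2
        omega
    rw [Ev.or_iff] at hor
    rcases hor with h | h
    · left
      refine ⟨(hP2 x).mpr (h.mono2 hx' fun t h1 h2 => ⟨by have := h2.1; omega, h1⟩), fun hc => ?_⟩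
      rw [hP3] at hc
      exact (hc.mono3 h hx' fun t h1 h2 h3 => Anc.unique h3.1 h2 h1.2).false
    · right
      refine ⟨fun hc => ?_, (hP3 x).mpr (h.mono fun t h1 => ⟨by omega, h1⟩)⟩
      rw [hP2] at hc
      exact (hc.mono3 h hx' fun t h1 h2 h3 => Anc.unique h3.1 h1.2 h2).false

end Pool.Agent.KS6_49.CW.CR
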