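import Pool.Agent.KS6_49.CW.Large

/-!
Splitting of a set by a set of colours.
-/

namespace Pool.Agent.KS6_49.CW.CR

open CT

variable [Par]

variable {col : ℕ → ℕ} {S : Finset ℕ} {l r : CT} {Z : Set ℕ}

theorem pigeon0 {ι : Type} [Finite ι] (P : ι → ℕ → ℕ → Prop)
    (hP : ∀ i n n' m m', n ≤ n' → m ≤ m' → P i n' m' → P i n m) (h : ∀ n m, ∃ i, P i n m) :
    ∃ i, ∀ n m, P i n m := by
  classical
  by_contra hcon
  push Not at hcon
  choose nn mm hnm using hcon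
  have := Fintype.ofFinite ι
  obtain ⟨i, hi⟩ := h (Finset.univ.sup nn) (Finset.univ.sup mm)
  exact hnm i (hP i _ _ _ _ (Finset.le_sup (Finset.mem_univ i)) (Finset.le_sup (Finset.mem_univ i))
    hi)

/-- the move of splitting for fixed heights -/
def M7' (col : ℕ → ℕ) (G : CT → Finset ℕ → Prop) (T : CT) (Y : Finset ℕ) (k h : ℕ) : Prop :=
  ∀ (X : Set ℕ), perf (k + h + 1) T →
  (∃ v, Emb false v T ∧ perf h v ∧ ∃ D ⊆ Y, G v D ∧
    ∀ x ∈ X, ¬ ((∃ a ∈ D, a ≤ x) ∧ (∃ b ∈ D, x ≤ b))) ∨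
  ∃ (B : Finset ℕ) (T' : CT), Emb true T' T ∧ perf k T' ∧ B ⊆ T.rng ∧
    ∃ Y' ⊆ Y, G T' Y' ∧ Btw col X B (Y' : Set ℕ) ∧
    (∃ x ∈ X, ((∃ a ∈ Y, a ≤ x) ∧ (∃ b ∈ Y, x ≤ b)) ∧ col x ∈ B) ∧
    ∃ x ∈ X, ((∃ a ∈ Y, a ≤ x) ∧ (∃ b ∈ Y, x ≤ b)) ∧ col x ∉ B

/-- The infinite splitting theorem: if `X` meets all blocks of height `h` then some set of colours
splits `X` everywhere along a large set. -/
theorem LL.split (hT : (CT.node S l r).WF) (hZ : LL col S l r Z) (k h n0 : ℕ) (X : Set ℕ)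
    (hk : perf (k + h + 2) (.node S l r))
    (hX : ∀ v, Emb false v (.node S l r) → perf h v → ∀ D : Finset ℕ, (D : Set ℕ) ⊆ Z →
      L col n0 v D → ∃ x ∈ X, (∃ a ∈ D, a ≤ x) ∧ (∃ b ∈ D, x ≤ b)) :
    ∃ B : Finset ℕ, B ⊆ S ∧ ∃ l' r' : CT, Emb true (.node S l' r') (.node S l r) ∧
      perf (k + 1) (.node S l' r') ∧ (∃ Z' ⊆ Z, LL col S l' r' Z' ∧ Btw col X B Z') ∧
      (∃ x ∈ X, (∃ a ∈ Z, a ≤ x) ∧ col x ∈ B) ∧ ∃ x ∈ X, (∃ a ∈ Z, a ≤ x) ∧ col x ∉ B := by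
  classical
  have hemb : ∀ ε v, Emb false v (sub l r ε) → Emb false v (.node S l r) := by
    intro ε v hv
    cases ε
    · exact .left hv
    · exact .right hv
  have hperf : ∀ ε, perf (k + h + 1) (sub l r ε) := by
    intro ε
    cases ε
    · exact hk.1
    · exact hk.2
  -- labels
  have key : ∀ ε : Bool, ∃ (B : Finset ℕ) (T' : CT), B ⊆ (sub l r ε).rng ∧
      Emb true T' (sub l r ε) ∧ perf k T' ∧ ∀ n m,
      ∃ D : Finset ℕ, (D : Set ℕ) ⊆ Z ∧ (∀ x ∈ D, m < x) ∧ L col n T' D ∧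
        Btw col X B (D : Set ℕ) ∧
        (∃ x ∈ X, m < x ∧ (∃ a ∈ Z, a ≤ x) ∧ col x ∈ B) ∧
        ∃ x ∈ X, m < x ∧ (∃ a ∈ Z, a ≤ x) ∧ col x ∈ (sub l r ε).rng ∧ col x ∉ B := by
    intro ε
    have hfin : Finite {T' : CT // Emb true T' (sub l r ε) ∧ perf k T'} := by
      have h1 : {T' : CT | Emb true T' (sub l r ε) ∧ perf k T'}.Finite :=
        (Emb.finite (sub l r ε)).subset (fun T' h => Emb.here h.1)
      exact h1.to_subtype
    obtain ⟨⟨⟨B, hB⟩, ⟨T', e1, e2⟩⟩, hT'⟩ := pigeon0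
      (ι := {B // B ∈ (sub l r ε).rng.powerset} ×
        {T' : CT // Emb true T' (sub l r ε) ∧ perf k T'})
      (fun i n m => ∃ D : Finset ℕ, (D : Set ℕ) ⊆ Z ∧ (∀ x ∈ D, m < x) ∧ L col n i.2.1 D ∧
        Btw col X i.1.1 (D : Set ℕ) ∧
        (∃ x ∈ X, m < x ∧ (∃ a ∈ Z, a ≤ x) ∧ col x ∈ i.1.1) ∧
        ∃ x ∈ X, m < x ∧ (∃ a ∈ Z, a ≤ x) ∧ col x ∈ (sub l r ε).rng ∧ col x ∉ i.1.1)
      (by
        rintro i n n' m m' hn hm ⟨D, h1, h2, h3, h4, ⟨x, hx, hx1, hx2, hx3⟩, x', hx', hx1', hx2',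
          hx3'⟩
        exact ⟨D, h1, fun x hx => lt_of_le_of_lt hm (h2 x hx), L_le hn h3, h4,
          ⟨x, hx, lt_of_le_of_lt hm hx1, hx2, hx3⟩, x', hx', lt_of_le_of_lt hm hx1', hx2', hx3'⟩)
      (by
        intro n m
        obtain ⟨D, hD, hm, hL⟩ := hZ.2 (max n n0 + 1) ε m
        rcases F7 hL k h X (hperf ε) with ⟨v, f1, f2, E, hE, hLE, hEX⟩ |
          ⟨B, T', f1, f2, f3, Y', hY', hLY, hBt, ⟨x, hx, ⟨⟨a, ha, hax⟩, b, hb, hxb⟩, hxB⟩,
            x', hx', ⟨⟨a', ha', hax'⟩, b', hb', hxb'⟩, hxB'⟩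
        · exfalso
          obtain ⟨x, hx, hx'⟩ := hX v (hemb ε v f1) f2 E
            ((Finset.coe_subset.mpr hE).trans hD) (L_le (le_max_right n n0) hLE)
          exact hEX x hx hx'
        · refine ⟨⟨⟨B, Finset.mem_powerset.mpr f3⟩, ⟨T', f1, f2⟩⟩, Y',
            (Finset.coe_subset.mpr hY').trans hD, fun x hx => hm x (hY' hx),
            L_le (le_max_left n n0) hLY, hBt, ⟨x, hx, lt_of_lt_of_le (hm a ha) hax,
              ⟨a, hD ha, hax⟩, hxB⟩, x', hx', lt_of_lt_of_le (hm a' ha') hax',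
              ⟨a', hD ha', hax'⟩, L_Cv hL x' ⟨a', ha', hax'⟩ ⟨b', hb', hxb'⟩, hxB'⟩)
    exact ⟨B, T', Finset.mem_powerset.mp hB, e1, e2, hT'⟩
  choose B T' hB e1 e2 hT' using key
  have hsub : ∀ ε, sub (T' false) (T' true) ε = T' ε := by
    intro ε; cases ε <;> rfl
  have hE : Emb true (.node S (T' false) (T' true)) (.node S l r) :=
    .node (.here (e1 false)) (.here (e1 true))
  have hwf := hE.wf hT
  have hrng : ∀ ε, (T' ε).rng = (sub l r ε).rng := fun ε => (e1 ε).root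
  let BB := B false ∪ B true
  have hBB : ∀ ε, B ε ⊆ BB := by
    intro ε; cases ε
    · exact Finset.subset_union_left
    · exact Finset.subset_union_right
  have hBB' : ∀ ε a, a ∈ (sub l r ε).rng → a ∉ B ε → a ∉ BB := by
    intro ε a ha haB hc
    rcases Finset.mem_union.mp hc with h1 | h1
    · have := sub_disj hT ha (hB false h1)
      rw [this] at haB
      exact haB h1
    · have := sub_disj hT ha (hB true h1)
      rw [this] at haB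
      exact haB h1
  -- the next points of `X`
  have hβ : ∀ m : ℕ, ∃ b : ℕ, (∃ x ∈ X, m < x ∧ x ≤ b ∧ col x ∈ BB) ∧
      ∃ x ∈ X, m < x ∧ x ≤ b ∧ col x ∉ BB := by
    intro m
    obtain ⟨D, _, _, _, _, ⟨x, hx, hx1, _, hx3⟩, x', hx', hx1', _, hx3', hx4'⟩ := hT' false 0 m
    exact ⟨max x x', ⟨x, hx, hx1, le_max_left _ _, hBB false hx3⟩, x', hx', hx1',
      le_max_right _ _, hBB' false _ hx3' hx4'⟩
  choose β hβ1 hβ2 using hβ
  obtain ⟨Z', hZ', hL', hd1, hd2, _⟩ := diag hwf (fun i => {z | z ∈ Z ∧ ∀ j < i, β j < z})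
    (by
      rintro z ⟨a, ha, haz⟩
      exact hZ.1 z ⟨a, ha.1, haz⟩)
    (by
      intro i z hz
      exact ⟨hz.1, fun j hj => hz.2 j (by omega)⟩)
    (fun D => ∃ ε, (∀ z ∈ D, col z ∈ (T' ε).rng) ∧ Btw col X (B ε) (D : Set ℕ))
    (fun i n ε m => by
      obtain ⟨D, h1, h2, h3, h4, _⟩ := hT' ε n (max m ((Finset.range i).sup β))
      refine ⟨D, ?_, ?_, ?_, ε, fun z hz => (L_Cv h3).mem hz, h4⟩
      · intro z hz
        refine ⟨h1 hz, fun j hj => ?_⟩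
        have h5 : β j ≤ (Finset.range i).sup β := Finset.le_sup (Finset.mem_range.mpr hj)
        have h6 := h2 z hz
        have h7 := le_max_right m ((Finset.range i).sup β)
        omega
      · intro z hz
        exact lt_of_le_of_lt (le_max_left _ _) (h2 z hz)
      · rw [hsub]; exact h3)
  obtain ⟨_, _, _, _, _, ⟨x, hx, _, hx2, hx3⟩, x', hx', _, hx2', hx3', hx4'⟩ := hT' false 0 0
  refine ⟨BB, ?_, T' false, T' true, hE, ⟨e2 false, e2 true⟩,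
    ⟨Z', fun z hz => (hZ' hz).1, hL', ?_⟩, ⟨x, hx, hx2, hBB false hx3⟩,
    x', hx', hx2', hBB' false _ hx3' hx4'⟩
  · intro a ha
    rcases Finset.mem_union.mp ha with h1 | h1
    · exact sub_rng hT false (hB false h1)
    · exact sub_rng hT true (hB true h1)
  · intro y hy y' hy' hyy'
    by_cases hm : Mono col (T' false) (T' true) y y'
    · obtain ⟨D, ⟨ε, hD1, hD2⟩, hD3⟩ := hd2 y hy y' hy' hyy' hm
      obtain ⟨ε', hε'⟩ := hm
      have hyD := hD3 y hy le_rfl hyy'.le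
      have hy'D := hD3 y' hy' hyy'.le le_rfl
      have hεε : ε = ε' := sub_disj hwf (by rw [hsub]; exact hD1 y hyD)
        (hε' y le_rfl hyy'.le)
      subst hεε
      obtain ⟨⟨w, hw, hw1, hw2, hw3⟩, w', hw', hw1', hw2', hw3'⟩ := hD2 y hyD y' hy'D hyy'
      refine ⟨⟨w, hw, hw1, hw2, hBB ε hw3⟩, w', hw', hw1', hw2', hBB' ε _ ?_ hw3'⟩
      have := hε' w' hw1' hw2'
      rw [hsub, hrng] at this
      exact this
    · have h1 := (hd1 y hy y' hy' hyy' hm).2 y (Nat.lt_succ_self y)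
      obtain ⟨w, hw, hw1, hw2, hw3⟩ := hβ1 y
      obtain ⟨w', hw', hw1', hw2', hw3'⟩ := hβ2 y
      exact ⟨⟨w, hw, hw1.le, by omega, hw3⟩, w', hw', hw1'.le, by omega, hw3'⟩

end Pool.Agent.KS6_49.CW.CR
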